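import Mathlib

/-!
Measure preserving actions of the integers and masses of names.
-/

open MeasureTheory Set

noncomputable section

namespace Pool.Agent.Lib.MP_a52643_an.AC

variable {Ω S : Type} [MeasurableSpace Ω]

/-- a measure preserving action of the integers -/
structure Fl (μ : Measure Ω) (T : ℤ → Ω → Ω) : Prop where
  mp : ∀ j, MeasurePreserving (T j) μ μ
  zero : ∀ ω, T 0 ω = ω
  add : ∀ i j ω, T (i + j) ω = T i (T j ω)

/-- the points with the same name as `ω` on the window `[a, b)` -/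
def cyl (T : ℤ → Ω → Ω) (c : Ω → S) (a b : ℤ) (ω : Ω) : Set Ω :=
  {ω' | ∀ j, a ≤ j → j < b → c (T j ω') = c (T j ω)}

/-- the mass of the name of `ω` on the window `[a, b)` -/
def P (μ : Measure Ω) (T : ℤ → Ω → Ω) (c : Ω → S) (a b : ℤ) (ω : Ω) : ℝ :=
  μ.real (cyl T c a b ω)

/-- the information of the name of `ω` on the window `[a, b)` -/
def J (μ : Measure Ω) (T : ℤ → Ω → Ω) (c : Ω → S) (a b : ℤ) (ω : Ω) : ℝ :=
  -Real.log (P μ T c a b ω)

end Pool.Agent.Lib.MP_a52643_an.AC
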