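import Mathlib

/-!
A finite measure on the upper half plane with few close pairs is absolutely continuous.
-/

open MeasureTheory Set Filter Topology Metric UpperHalfPlane
open scoped MatrixGroups ENNReal

noncomputable section

namespace Pool.Agent.Lib.MP_a52643_an.AC

/-- a singular finite measure on the plane with few close pairs vanishes -/
private lemma sing_plane (τ : Measure ℂ) [IsFiniteMeasure τ] (hs : τ ⟂ₘ volume) {C : ℝ≥0∞}
    (hC : C ≠ ⊤) {r₀ : ℝ} (r0 : 0 < r₀)
    (h : ∀ r : ℝ, 0 < r → r ≤ r₀ → ∫⁻ x, τ (closedBall x r) ∂τ ≤ C * ENNReal.ofReal (r ^ 2)) :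
    τ = 0 := by
  set r : ℕ → ℝ := fun n => r₀ / (n + 1) with hr
  have rp : ∀ n, 0 < r n := fun n => by positivity
  have rle : ∀ n, r n ≤ r₀ := fun n => div_le_self r0.le (by linarith [n.cast_nonneg (α := ℝ)])
  have rt : Tendsto r atTop (𝓝[>] 0) := by
    refine tendsto_nhdsWithin_iff.2 ⟨?_, .of_forall rp⟩
    simpa [hr, div_eq_mul_inv] using
      (tendsto_one_div_add_atTop_nhds_zero_nat (𝕜 := ℝ)).const_mul r₀
  set v : ℕ → ℝ≥0∞ := fun n => ENNReal.ofReal (r n) ^ 2 * NNReal.pi with hv
  have v0 : ∀ n, ENNReal.ofReal (r n) ^ 2 ≠ 0 := fun n => by simpa using rp n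
  have p1 : (1 : ℝ≥0∞) ≤ NNReal.pi := by
    have : (1 : NNReal) ≤ NNReal.pi := by
      rw [← NNReal.coe_le_coe]; simpa using by linarith [Real.pi_gt_three]
    exact_mod_cast this
  have v1 : ∀ n, v n ≠ 0 := fun n => mul_ne_zero (v0 n) (zero_lt_one.trans_le p1).ne'
  have v2 : ∀ n, v n ≠ ⊤ := fun n => ENNReal.mul_ne_top (by simp) (by simp)
  have mf : ∀ n, Measurable fun x : ℂ => τ (closedBall x (r n)) := fun n =>
    measurable_measure_prodMk_left (ν := τ) (s := {p : ℂ × ℂ | dist p.2 p.1 ≤ r n})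
      (measurableSet_le (by fun_prop) (by fun_prop))
  have h1 : ∀ᵐ x ∂τ, liminf (fun n => τ (closedBall x (r n)) / v n) atTop = ⊤ := by
    filter_upwards [Besicovitch.ae_tendsto_rnDeriv volume τ, hs.symm.rnDeriv_ae_eq_zero]
      with x a b
    rw [b] at a
    have := tendsto_inv_iff.2 (a.comp rt)
    simp only [Pi.zero_apply, ENNReal.inv_zero] at this
    refine Tendsto.liminf_eq (this.congr fun n => ?_)
    simp only [Function.comp, Complex.volume_closedBall]
    exact ENNReal.inv_div (Or.inr (v2 n)) (Or.inr (v1 n))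
  have h2 := lintegral_liminf_le (μ := τ) (u := atTop)
    (f := fun n x => τ (closedBall x (r n)) / v n) fun n => (mf n).div_const _
  rw [lintegral_congr_ae h1, lintegral_const] at h2
  have h3 : ∀ n, ∫⁻ x, τ (closedBall x (r n)) / v n ∂τ ≤ C := fun n => by
    simp only [div_eq_mul_inv]
    rw [lintegral_mul_const _ (mf n), ← div_eq_mul_inv]
    refine ENNReal.div_le_of_le_mul ((h _ (rp n) (rle n)).trans ?_)
    rw [ENNReal.ofReal_pow (rp n).le]
    exact mul_le_mul_right (le_mul_of_one_le_right' p1) _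
  have h4 := h2.trans (liminf_le_of_frequently_le' (.of_forall h3))
  by_contra hne
  rw [ENNReal.top_mul (by simpa using hne)] at h4
  exact hC (top_le_iff.1 h4)

theorem ac_of_pair (σ : Measure ℍ) [IsFiniteMeasure σ] {C : ℝ≥0∞} (hC : C ≠ ⊤)
    (h : ∀ η : ℝ, 0 < η → η ≤ 1 →
      ∫⁻ z, σ (ball z η) ∂σ ≤ C * ENNReal.ofReal (η ^ 2)) : σ ≪ volume := by
  refine Measure.AbsolutelyContinuous.mk fun Z mZ hZ => ?_
  have em := measurableEmbedding_coe
  have z0 : volume (UpperHalfPlane.coe '' Z) = 0 := by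
    rw [← em.comap_apply]
    rw [volume_def] at hZ
    refine withDensity_absolutelyContinuous' ?_ (.of_forall fun z => ?_) hZ
    · have mi : Measurable fun z : ℍ => NNReal.mk z.im z.im_pos.le :=
        (continuous_im.subtype_mk _).measurable
      exact ((measurable_const.div mi).pow_const 2).coe_nnreal_ennreal.aemeasurable
    · exact ENNReal.coe_ne_zero.2
        (pow_ne_zero _ (one_div_ne_zero (NNReal.ne_iff.mp z.im_ne_zero)))
  have key : ∀ k : ℝ, 0 < k → σ (Z ∩ {z | k ≤ z.im}) = 0 := fun k k0 => by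
    have mS : MeasurableSet (Z ∩ {z : ℍ | k ≤ z.im}) :=
      mZ.inter (isClosed_le continuous_const continuous_im).measurableSet
    set S := Z ∩ {z : ℍ | k ≤ z.im} with hS
    have := sing_plane ((σ.restrict S).map UpperHalfPlane.coe) (C := C * ENNReal.ofReal ((2 / k) ^ 2))
      (r₀ := k / 2) ?_ (ENNReal.mul_ne_top hC (by simp)) (by positivity) ?_
    · have e := congrArg (fun m : Measure ℂ => m univ) this
      simpa [em.map_apply] using e
    · refine ⟨(UpperHalfPlane.coe '' Z)ᶜ, (em.measurableSet_image.2 mZ).compl, ?_, by simpa using z0⟩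
      rw [em.map_apply, preimage_compl, preimage_image_eq _ em.injective,
        Measure.restrict_apply mZ.compl]
      convert measure_empty (μ := σ)
      ext z; simp only [hS, mem_inter_iff, mem_compl_iff, mem_empty_iff_false]; tauto
    · intro r r0 r1
      have e0 : 0 < 2 / k * r := by positivity
      have e1 : 2 / k * r ≤ 1 := by
        rw [div_mul_eq_mul_div, div_le_one k0]; linarith
      rw [em.lintegral_map, mul_assoc, ← ENNReal.ofReal_mul (by positivity), ← mul_pow]
      refine le_trans ?_ ((setLIntegral_le_lintegral S _).trans (h _ e0 e1))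
      refine setLIntegral_mono' mS fun z hz => ?_
      rw [em.map_apply, Measure.restrict_apply' mS]
      refine measure_mono fun w hw => ?_
      have a1 : dist (w : ℂ) z ≤ r := hw.1
      have a2 : k ≤ √(w.im * z.im) :=
        Real.le_sqrt_of_sq_le (by nlinarith [hw.2.2.out, hz.2.out])
      refine (dist_le_dist_coe_div_sqrt w z).trans_lt ?_
      calc dist (w : ℂ) z / √(w.im * z.im) ≤ r / k := by gcongr
        _ < 2 / k * r := by
          rw [div_mul_eq_mul_div]; gcongr; linarith
  have : Z = ⋃ n : ℕ, Z ∩ {z | 1 / ((n : ℝ) + 1) ≤ z.im} := by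
    rw [← inter_iUnion]
    refine (inter_eq_left.2 fun z _ => ?_).symm
    obtain ⟨n, hn⟩ := exists_nat_one_div_lt z.im_pos
    exact mem_iUnion.2 ⟨n, hn.le⟩
  rw [this]
  exact measure_iUnion_null fun n => key _ (by positivity)

end Pool.Agent.Lib.MP_a52643_an.AC
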