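import Pool.Agent.Lib.MP_a52643_an.AC.Geo
import Pool.Agent.Lib.MP_a52643_an.AC.Sing

/-!
A measure on a small box with small tubes has an absolutely continuous flow projection.
-/

open MeasureTheory Set Filter Topology Metric UpperHalfPlane
open scoped MatrixGroups ENNReal

noncomputable section

namespace Pool.Agent.Lib.MP_a52643_an.AC

open NS

private lemma ener_pt {ε τ ρ : ℝ} (ε0 : 0 < ε) (τ0 : 0 < τ) (ρ0 : 0 ≤ ρ) (ρ1 : ρ ≤ ε) :
    (ENNReal.ofReal ρ)⁻¹ ≤ ∑' n : ℕ, {x : ℝ | x ≤ ε * Real.exp (-(τ * n))}.indicator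
      (fun _ => ENNReal.ofReal (Real.exp (τ * (n + 1)) / ε)) ρ := by
  rcases ρ0.eq_or_lt with rfl | ρ0
  · refine le_top.trans (le_of_eq_of_le (ENNReal.tsum_const_eq_top_of_ne_zero (α := ℕ)
      (c := ENNReal.ofReal (1 / ε)) (by simpa using ε0)).symm (ENNReal.tsum_le_tsum fun n => ?_))
    rw [indicator_of_mem (show (0 : ℝ) ∈ {x : ℝ | x ≤ ε * Real.exp (-(τ * n))} from
      show (0 : ℝ) ≤ ε * Real.exp (-(τ * n)) by positivity)]
    refine ENNReal.ofReal_le_ofReal ?_
    gcongr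
    exact Real.one_le_exp (by positivity)
  have hex : ∃ n : ℕ, ε * Real.exp (-(τ * (n + 1))) < ρ := by
    obtain ⟨n, hn⟩ := exists_nat_gt (ε / ρ / τ)
    refine ⟨n, ?_⟩
    rw [div_lt_iff₀ τ0, div_lt_iff₀ ρ0] at hn
    rw [Real.exp_neg, ← div_eq_mul_inv, div_lt_iff₀ (Real.exp_pos _)]
    nlinarith [Real.add_one_le_exp (τ * (n + 1)), mul_pos τ0 ρ0]
  refine le_trans ?_ (ENNReal.le_tsum (Nat.find hex))
  have h1 := Nat.find_spec hex
  have h2 : ρ ≤ ε * Real.exp (-(τ * (Nat.find hex : ℕ))) := by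
    rcases (Nat.find hex).eq_zero_or_eq_succ_pred with e | e
    · simpa [e] using ρ1
    · have := Nat.find_min hex (m := (Nat.find hex).pred) (by omega)
      rw [e]; push_cast; exact not_lt.1 this
  rw [indicator_of_mem (show ρ ∈ {x : ℝ | x ≤ ε * Real.exp (-(τ * (Nat.find hex : ℕ)))} from h2),
    ← ENNReal.ofReal_inv_of_pos ρ0]
  refine ENNReal.ofReal_le_ofReal ?_
  rw [← inv_div, div_eq_mul_inv ε, ← Real.exp_neg]
  exact inv_anti₀ (by positivity) h1.le

theorem energy_le (m : Measure SL2) [IsFiniteMeasure m] {ε τ d : ℝ} (ε0 : 0 < ε) (τ0 : 0 < τ)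
    (d0 : 0 < d) (n₁ : ℕ) : ∃ B : ℝ≥0∞, B ≠ ⊤ ∧ ∀ g : SL2,
      (∀ᵐ g' ∂m, max |eb (g⁻¹ * g')| |ec (g⁻¹ * g')| ≤ ε) →
      (∀ n : ℕ, n₁ ≤ n → m.real {g' | max |eb (g⁻¹ * g')| |ec (g⁻¹ * g')| ≤ ε * Real.exp (-(τ * n))}
        ≤ Real.exp (-((1 + d) * τ * n))) →
      ∫⁻ g', (ENNReal.ofReal (max |eb (g⁻¹ * g')| |ec (g⁻¹ * g')|))⁻¹ ∂m ≤ B := by
  set K := 1 + m.real univ * Real.exp ((1 + d) * τ * n₁) with hK
  have K1 : 1 ≤ K := le_add_of_nonneg_right (by positivity)
  have hq : Real.exp (-(d * τ)) < 1 := Real.exp_lt_one_iff.2 (by nlinarith)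
  refine ⟨∑' n : ℕ, ENNReal.ofReal (Real.exp τ / ε * K * Real.exp (-(d * τ)) ^ n), ?_,
    fun g h1 h2 => ?_⟩
  · rw [← ENNReal.ofReal_tsum_of_nonneg (fun n => by positivity)
      ((summable_geometric_of_lt_one (Real.exp_pos _).le hq).mul_left _)]
    exact ENNReal.ofReal_ne_top
  set ρ : SL2 → ℝ := fun g' => max |eb (g⁻¹ * g')| |ec (g⁻¹ * g')| with hρ
  have mρ : Measurable ρ := by fun_prop
  have mS : ∀ n : ℕ, MeasurableSet {g' | ρ g' ≤ ε * Real.exp (-(τ * n))} := fun n =>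
    measurableSet_le mρ measurable_const
  calc _ ≤ ∫⁻ g', ∑' n : ℕ, {g' | ρ g' ≤ ε * Real.exp (-(τ * n))}.indicator
        (fun _ => ENNReal.ofReal (Real.exp (τ * (n + 1)) / ε)) g' ∂m :=
        lintegral_mono_ae (h1.mono fun g' h =>
          ener_pt ε0 τ0 (le_max_of_le_left (abs_nonneg _)) h)
    _ ≤ _ := by
        rw [lintegral_tsum fun n => (measurable_const.indicator (mS n)).aemeasurable]
        refine ENNReal.tsum_le_tsum fun n => ?_
        rw [lintegral_indicator_const (mS n), ← ofReal_measureReal (measure_ne_top _ _),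
          ← ENNReal.ofReal_mul (by positivity)]
        refine ENNReal.ofReal_le_ofReal ?_
        have a : m.real {g' | ρ g' ≤ ε * Real.exp (-(τ * n))}
            ≤ K * Real.exp (-((1 + d) * τ * n)) := by
          rcases le_or_gt n₁ n with c | c
          · exact (h2 n c).trans (le_mul_of_one_le_left (Real.exp_pos _).le K1)
          · have c' : (n : ℝ) ≤ n₁ := by exact_mod_cast c.le
            have b : 1 ≤ Real.exp ((1 + d) * τ * n₁) * Real.exp (-((1 + d) * τ * n)) := by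
              rw [← Real.exp_add]
              exact Real.one_le_exp (by nlinarith [mul_pos (add_pos one_pos d0) τ0])
            refine (measureReal_mono (subset_univ _)).trans ?_
            nlinarith [mul_le_mul_of_nonneg_left b (measureReal_nonneg (μ := m) (s := univ)),
              Real.exp_pos (-((1 + d) * τ * n))]
        refine (mul_le_mul_of_nonneg_left a (by positivity)).trans (le_of_eq ?_)
        have e : Real.exp (τ * (n + 1)) * Real.exp (-((1 + d) * τ * n))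
            = Real.exp τ * Real.exp (-(d * τ)) ^ n := by
          rw [← Real.exp_nat_mul, ← Real.exp_add, ← Real.exp_add]; ring_nf
        linear_combination K / ε * e

theorem proj_ac (m : Measure SL2) [IsFiniteMeasure m] {B : ℝ≥0∞} (hB : B ≠ ⊤)
    (h1 : ∀ᵐ g ∂m, ∀ᵐ g' ∂m, |ea (g⁻¹ * g') - 1| ≤ 1 / 10 ∧ |eb (g⁻¹ * g')| ≤ 1 / 10 ∧
      |ec (g⁻¹ * g')| ≤ 1 / 10 ∧ |ed (g⁻¹ * g') - 1| ≤ 1 / 10)
    (h2 : ∀ᵐ g ∂m, ∫⁻ g', (ENNReal.ofReal (max |eb (g⁻¹ * g')| |ec (g⁻¹ * g')|))⁻¹ ∂m ≤ B) :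
    (m.prod (volume.restrict (Icc (0 : ℝ) 1))).map (fun p => bp (p.1 * aG p.2)) ≪ volume := by
  obtain ⟨C, C0, hC⟩ := pair_len
  set l : Measure ℝ := volume.restrict (Icc (0 : ℝ) 1) with hl
  set f : SL2 × ℝ → ℍ := fun p => bp (p.1 * aG p.2) with hf
  have mf : Measurable f := by fun_prop
  refine ac_of_pair _ (C := ENNReal.ofReal C * B * m univ)
    (ENNReal.mul_ne_top (ENNReal.mul_ne_top (by simp) hB) (measure_ne_top _ _)) fun η η0 η1 => ?_
  set F : SL2 × ℝ → SL2 → ℝ≥0∞ := fun p g => l {t | dist (f (g, t)) (f p) < η} with hF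
  have mF : Measurable (Function.uncurry F) :=
    measurable_measure_prodMk_left (ν := l)
      (s := {q : ((SL2 × ℝ) × SL2) × ℝ | dist (f (q.1.2, q.2)) (f q.1.1) < η})
      (measurableSet_lt (Measurable.dist (by fun_prop) (by fun_prop)) measurable_const)
  calc ∫⁻ z, (m.prod l).map f (ball z η) ∂(m.prod l).map f
      ≤ ∫⁻ p, (m.prod l).map f (ball (f p) η) ∂(m.prod l) :=
        lintegral_map_le (fun z => (m.prod l).map f (ball z η)) f
    _ = ∫⁻ p, ∫⁻ g, F p g ∂m ∂(m.prod l) := by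
        refine lintegral_congr fun p => ?_
        rw [Measure.map_apply mf measurableSet_ball, Measure.prod_apply (mf measurableSet_ball)]
        rfl
    _ = ∫⁻ g, ∫⁻ p, F p g ∂(m.prod l) ∂m := lintegral_lintegral_swap mF.aemeasurable
    _ ≤ ∫⁻ _, ENNReal.ofReal (C * η ^ 2) * B ∂m := by
        refine lintegral_mono_ae ?_
        filter_upwards [h1, h2] with g a b
        refine (lintegral_prod_le _).trans (le_trans ?_ (mul_le_mul_right b _))
        rw [← lintegral_const_mul' _ _ ENNReal.ofReal_ne_top]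
        refine lintegral_mono_ae (a.mono fun g' c => ?_)
        refine le_trans (le_of_eq (lintegral_congr fun s => ?_))
          (hC _ η c.1 c.2.1 c.2.2.1 c.2.2.2 η0 η1)
        rw [hF, hl]
        simp only
        rw [Measure.restrict_apply' measurableSet_Icc]
        congr 1
        ext t
        have : dist (bp (aG t)) (bp (g⁻¹ * g' * aG s)) = dist (f (g, t)) (f (g', s)) := by
          rw [← dist_smul g, ← bp_mul, ← bp_mul, ← mul_assoc, mul_inv_cancel_left]
        simp only [mem_inter_iff, mem_ofPred_eq, this, and_comm]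
    _ = ENNReal.ofReal C * B * m univ * ENNReal.ofReal (η ^ 2) := by
        rw [lintegral_const, ENNReal.ofReal_mul C0.le]; ring

end Pool.Agent.Lib.MP_a52643_an.AC
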