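import Pool.Agent.Lib.MP_a52643_an.SE.Main2

/-!
The names of rate at most a little more than one half carry at most about one half of the mass.
-/

open MeasureTheory Set Filter Topology Metric UpperHalfPlane
open scoped ENNReal MatrixGroups Real

noncomputable section

namespace Pool.Agent.Lib.MP_a52643_an.AC

open SE NS

variable {Γ : Type} [Group Γ] [MulAction Γ ℍ] {e : ℝ} {Λ : Set SL2} {μ : Measure SL2}

open Classical in
lemma half_slab {Ω : Type} (s : Finset Ω) (p R : Ω → ℝ) (G : Ω → Prop) {a b η : ℝ}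
    (hp : ∀ ω, 0 ≤ p ω) (hη : η ≤ b) :
    ∑ ω ∈ s with R ω ≤ a, p ω ≤ ∑ ω ∈ s with R ω ≤ a ∧ (G ω ∨ R ω ≤ b), p ω
      + ∑ ω ∈ s with η < R ω ∧ ¬ G ω, p ω := by
  rw [Finset.sum_filter, Finset.sum_filter, Finset.sum_filter, ← Finset.sum_add_distrib]
  refine Finset.sum_le_sum fun ω _ => ?_
  have := hp ω
  by_cases h1 : R ω ≤ a
  · by_cases h2 : G ω ∨ R ω ≤ b
    · rw [if_pos h1, if_pos ⟨h1, h2⟩]; split_ifs <;> linarith
    · rw [if_pos h1, if_neg fun h => h2 h.2,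
        if_pos ⟨by by_contra h; exact h2 (Or.inr (by linarith)), fun h => h2 (Or.inl h)⟩, zero_add]
  · rw [if_neg h1]; split_ifs <;> linarith

open Classical in
theorem cod_half {N : ℕ} {ctr : Fin N → ℍ × ℍ} {c : SL2 → Fin N} {r τ : ℝ} {B : ℕ}
    (C : Cod Γ e Λ μ ctr c r τ B) (hB : 1 ≤ B) {ε : ℝ} (ε0 : 0 < ε)
    (hτ : 20 * (Real.log B + 10) ≤ 1 / 4 * τ * (ε / 2)) :
    ∃ δ > (0 : ℝ), ∃ l : ℕ, 0 < l ∧ ∃ n₀ : ℕ, ∀ n ≥ n₀,
      ∑ w ∈ words (Fin N) (n * l) with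
        inf (wgt μ c τ) w ≤ (1 / 2 + δ) * ((n * l : ℕ) * τ), wgt μ c τ w ≤ 1 / 2 + ε := by
  have r0 := C.r0
  have τ1 := C.τ1
  have sP := C.sta
  have lN : 0 ≤ Real.log (Fintype.card (Fin N)) := Real.log_natCast_nonneg _
  obtain ⟨κ, c0, c1, c2⟩ : ∃ κ : ℝ, 0 < κ ∧ κ ≤ 1 ∧ κ * Real.log (Fintype.card (Fin N)) ≤ 1 :=
    ⟨1 / (Real.log (Fintype.card (Fin N)) + 1), by positivity,
      by rw [div_le_one (by positivity)]; linarith,
      by rw [div_mul_eq_mul_div, div_le_one (by positivity)]; linarith⟩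
  obtain ⟨m₁, a1, i1⟩ := sP.info hB c0.le c2
  obtain ⟨m₂, a2, i2⟩ := sP.rev.info hB c0.le c2
  obtain ⟨m, m0, d1, d2, hm⟩ : ∃ m : ℕ, 0 < m ∧ m₁ ∣ m ∧ m₂ ∣ m ∧
      6400 * (Real.exp (m * τ) / (2 * (5 * r))) ^ 8 / κ ^ 4 ≤ Real.exp ((10 * m : ℕ) * τ) := by
    obtain ⟨q, hq⟩ := exists_nat_ge (6400 / (2 * (5 * r)) ^ 8 / κ ^ 4)
    refine ⟨m₁ * m₂ * (q + 1), by positivity, ⟨m₂ * (q + 1), by ring⟩, ⟨m₁ * (q + 1), by ring⟩, ?_⟩
    have h1 : q + 1 ≤ m₁ * m₂ * (q + 1) := Nat.le_mul_of_pos_left _ (by positivity)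
    generalize m₁ * m₂ * (q + 1) = m at h1
    have h2 : (q : ℝ) + 1 ≤ m := by exact_mod_cast h1
    have h3 : (q : ℝ) ≤ Real.exp (2 * (m * τ)) := by
      have := Real.add_one_le_exp (2 * (m * τ))
      nlinarith [Nat.cast_nonneg (α := ℝ) q]
    have h4 : Real.exp ((10 * m : ℕ) * τ) = Real.exp (2 * (m * τ)) * Real.exp (m * τ) ^ 8 := by
      rw [← Real.exp_nat_mul, ← Real.exp_add]; congr 1; push_cast; ring
    rw [h4, div_pow]
    calc _ = 6400 / (2 * (5 * r)) ^ 8 / κ ^ 4 * Real.exp (m * τ) ^ 8 := by ring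
      _ ≤ _ := by gcongr; exact hq.trans h3
  obtain ⟨n₁, i1⟩ := i1 m m0 d1
  obtain ⟨n₂, i2⟩ := i2 m m0 d2
  have l1 : (1 : ℝ) ≤ (10 * m : ℕ) := by exact_mod_cast (by omega : 1 ≤ 10 * m)
  obtain ⟨β, β0, β1, β2⟩ : ∃ β : ℝ, 0 < β ∧ β ≤ 1 / 8 ∧
      4 * (β * ((10 * m : ℕ) * τ)) ≤ κ ^ 2 / (4 * (Real.exp (m * τ) / (2 * (5 * r))) ^ 4) := by
    refine ⟨min (1 / 8) (κ ^ 2 / (4 * (Real.exp (m * τ) / (2 * (5 * r))) ^ 4)
      / (4 * ((10 * m : ℕ) * τ))), by positivity, min_le_left _ _, ?_⟩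
    have := min_le_right (1 / 8) (κ ^ 2 / (4 * (Real.exp (m * τ) / (2 * (5 * r))) ^ 4)
      / (4 * ((10 * m : ℕ) * τ)))
    rw [le_div_iff₀ (by positivity)] at this
    linarith
  have lim : Tendsto (fun n : ℕ => 9 / (5 * r) ^ 2 * (6 * Real.exp (-(β * n)))) atTop
      (𝓝 (9 / (5 * r) ^ 2 * (6 * 0))) :=
    ((Real.tendsto_exp_neg_atTop_nhds_zero.comp (tendsto_natCast_atTop_atTop.const_mul_atTop
      (by positivity))).const_mul 6).const_mul _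
  rw [mul_zero, mul_zero] at lim
  obtain ⟨n₄, i4⟩ := eventually_atTop.1 (lim.eventually
    (ge_mem_nhds (show 0 < (ε / 212) ^ 2 by positivity)))
  refine ⟨β / 2, by positivity, 10 * m, by omega, max (max n₁ n₂) (max n₄ 10), fun n hn => ?_⟩
  simp only [ge_iff_le, max_le_iff] at hn
  obtain ⟨⟨b1, b2⟩, b4, b5⟩ := hn
  have j0 : 0 < n * (10 * m) := by positivity
  have j1 : n ≤ n * (10 * m) := Nat.le_mul_of_pos_right _ (by omega)
  have j2 : (n : ℝ) ≤ (n * (10 * m) : ℕ) := by exact_mod_cast j1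
  have n0 : (10 : ℝ) ≤ n := by exact_mod_cast b5
  set L : ℝ := (n * (10 * m) : ℕ) * τ with hL
  have L1 : (n : ℝ) ≤ L := by rw [hL]; nlinarith
  have L0 : 0 < L := by linarith
  have th : 9 / (5 * r) ^ 2 * (6 * Real.exp (-(β * L))) ≤ (ε / 212) ^ 2 := by
    refine le_trans ?_ (i4 n b4)
    gcongr
  have g := C.gain (θ := ε / 212) (by positivity) b5 c0 c1 hm (x := (1 / 2 + β / 2) * L)
    (y := (1 / 2 + β / 2) * L) (z := β * L) (by positivity) (by rw [← hL]; nlinarith) (by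
      have : β * L = n * (β * ((10 * m : ℕ) * τ)) := by rw [hL]; push_cast; ring
      rw [this]; nlinarith) th
  have k1 := main2_markov (n := n) (f := nbr (Br (wgt μ c τ) m (B ^ m) κ) (10 * m) n) sP
    (η := 1 / 4) (by norm_num) (by linarith) j0 (by omega) (by exact_mod_cast i1 n b1) hτ
  have h1 := i2 n b2
  rw [← sum_words_rev] at h1
  simp only [List.reverse_reverse, inf] at h1
  have k2 := main2_markov (n := n) (f := fun w => nbr (Br (fun w => wgt μ c τ w.reverse) m (B ^ m) κ)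
    (10 * m) n w.reverse) sP (η := 1 / 4) (by norm_num) (by linarith) j0 (by omega)
    (by unfold inf; exact_mod_cast h1) hτ
  simp only [← hL, lt_div_iff₀ L0] at k1 k2
  have hη : 1 / 4 * L ≤ (1 / 2 + β / 2) * L - 2 * (β * L) := by nlinarith
  have s1 := half_slab (words (Fin N) (n * (10 * m))) (wgt μ c τ) (inf (wgt μ c τ))
    (fun w => 20 * nbr (Br (wgt μ c τ) m (B ^ m) κ) (10 * m) n w ≤ n)
    (a := (1 / 2 + β / 2) * L) sP.nn hη
  have s2 := half_slab (words (Fin N) (n * (10 * m))) (wgt μ c τ) (inf (wgt μ c τ))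
    (fun w => 20 * nbr (Br (fun w => wgt μ c τ w.reverse) m (B ^ m) κ) (10 * m) n w.reverse ≤ n)
    (a := (1 / 2 + β / 2) * L) sP.nn hη
  have t1 := s1.trans (add_le_add le_rfl (le_trans (le_of_eq (by congr)) k1))
  have t2 := s2.trans (add_le_add le_rfl (le_trans (le_of_eq (by congr)) k2))
  have t3 := (add_le_add t1 t2).trans_eq (add_add_add_comm _ _ _ _)
  have t4 := t3.trans (add_le_add (le_trans (le_of_eq (by congr)) g) le_rfl)
  refine le_trans (le_of_eq (by congr)) (?_ : ∑ w ∈ words (Fin N) (n * (10 * m)) with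
    inf (wgt μ c τ) w ≤ (1 / 2 + β / 2) * L, wgt μ c τ w ≤ _)
  linarith

open Classical in
theorem half (H : Act Γ e) (e0 : 0 < e) {K : Set ℍ} (hK : IsCompact K)
    (hc : ∀ z : ℍ, ∃ γ : Γ, γ • z ∈ K) (hΛ : Λ ⊆ Lam Γ) [IsProbabilityMeasure μ]
    (hμ : Apx Γ Λ μ)
    (hinv : ∀ (t : ℝ) (A : Set SL2), MeasurableSet A → LI (Lam Γ) A → μ (tm t A) = μ A)
    {ε : ℝ} (ε0 : 0 < ε) :
    ∃ (N : ℕ) (τ : ℝ) (c : SL2 → Fin N) (δ : ℝ), 0 < τ ∧ 0 < δ ∧ Measurable c ∧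
      (∀ γ ∈ Lam Γ, ∀ g, c (γ * g) = c g) ∧
      ∃ᶠ n : ℕ in atTop, ∑ w ∈ words (Fin N) n with
        inf (wgt μ c τ) w ≤ (1 / 2 + δ) * (n * τ), wgt μ c τ w ≤ 1 / 2 + ε := by
  obtain ⟨r, r0, r1, r2⟩ : ∃ r : ℝ, 0 < r ∧ 20 * r ≤ e ∧ r ≤ 1 / 50 :=
    ⟨min (e / 20) (1 / 50), by positivity, (le_div_iff₀' (by norm_num)).1 (min_le_left _ _),
      min_le_right _ _⟩
  obtain ⟨B, hB, hs⟩ := H.sym hK hc r0
  have lB : 0 ≤ Real.log B := Real.log_natCast_nonneg _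
  obtain ⟨τ, τ1, hτ⟩ : ∃ τ : ℝ, 1 ≤ τ ∧ 20 * (Real.log B + 10) ≤ 1 / 4 * τ * (ε / 2) := by
    refine ⟨1 + 160 * (Real.log B + 10) / ε, by
      have : 0 ≤ 160 * (Real.log B + 10) / ε := by positivity
      linarith, ?_⟩
    have : 1 / 4 * (1 + 160 * (Real.log B + 10) / ε) * (ε / 2)
        = ε / 8 + 20 * (Real.log B + 10) := by field_simp; ring
    rw [this]; linarith
  obtain ⟨N, ctr, ov, cov⟩ := hs τ
  obtain ⟨c, mc, ic, col⟩ := H.col (ctr := ctr) (r := r) (τ := τ) fun g => cov _ _ (by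
    have : dist (bp (g * aG 0)) (bp (g * aG τ)) = |0 - τ| := by
      rw [bp_mul, bp_mul, dist_smul, bp_aG, bp_aG, dist_pt_eq, abs_sub_comm]
      congr 1; ring
    rw [aG_zero, mul_one, zero_sub, abs_neg, abs_of_nonneg (by linarith)] at this
    exact this.le)
  have C : Cod Γ e Λ μ ctr c r τ B :=
    ⟨H, hΛ, hμ, inferInstance, r0, r1, r2, τ1, ov, mc, col, sta_wgt mc ic hinv τ⟩
  obtain ⟨δ, δ0, l, l0, n₀, key⟩ := cod_half C hB ε0 hτ
  refine ⟨N, τ, c, δ, by linarith, δ0, mc, ic, frequently_atTop.2 fun a => ?_⟩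
  exact ⟨max a n₀ * l, (le_max_left a n₀).trans (Nat.le_mul_of_pos_right _ l0),
    key _ (le_max_right _ _)⟩

end Pool.Agent.Lib.MP_a52643_an.AC
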