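import Pool.Agent.Lib.MP_a52643_an.SE.Anc2

/-!
Existence of the invariant measure on the group and of a convergent subsequence of the lifts.
-/

open MeasureTheory Set Filter Topology Metric UpperHalfPlane Measure
open scoped ENNReal NNReal MatrixGroups ContDiff Laplacian

noncomputable section

namespace Pool.Agent.Lib.MP_a52643_an.AC

open SE NS

lemma wit_lc : LocallyCompactSpace SL2 :=
  haveI : LocallyCompactSpace (Matrix (Fin 2) (Fin 2) ℝ) :=
    inferInstanceAs (LocallyCompactSpace (Fin 2 → Fin 2 → ℝ))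
  Matrix.SpecialLinearGroup.isClosedEmbedding_val.locallyCompactSpace

lemma wit_sc : SecondCountableTopology SL2 :=
  haveI : SecondCountableTopology (Matrix (Fin 2) (Fin 2) ℝ) :=
    inferInstanceAs (SecondCountableTopology (Fin 2 → Fin 2 → ℝ))
  Matrix.SpecialLinearGroup.isClosedEmbedding_val.isEmbedding.secondCountableTopology

lemma wit_unimod [LocallyCompactSpace SL2] (g : SL2) : modularCharacterFun g = 1 := by
  have h : commutator SL2 ≤ (modularCharacter (G := SL2)).toHomUnits.ker := by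
    rw [commutator_def, Subgroup.commutator_le]
    intro a _ b _
    rw [MonoidHom.mem_ker, map_commutatorElement, commutatorElement_eq_one_iff_mul_comm, mul_comm]
  have k : g ∈ commutator SL2 :=
    Matrix.SL2.transvection_induction (fun A => A ∈ commutator SL2)
      (fun i j h c => Matrix.transvection_mem_commutator (a := (2 : ℝ)) (by norm_num) (by norm_num) h c)
      (fun A B hA hB => mul_mem hA hB) g
  have := h k
  rw [MonoidHom.mem_ker] at this
  exact congrArg Units.val this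

theorem nu_ex : ∃ ν : Measure SL2, ν.IsMulLeftInvariant ∧
    ν.IsMulRightInvariant ∧ MeasurePreserving (fun g : SL2 => g • (I : ℍ)) ν volume := by
  have := borel_SL2
  have := wit_lc
  have := wit_sc
  let μ : Measure SL2 := haar
  have hR : μ.IsMulRightInvariant := ⟨fun g => by
    rw [map_right_mul_eq_modularCharacterFun_smul μ g, wit_unimod, one_smul]⟩
  have : SMulInvariantMeasure SL2 ℍ volume :=
    ⟨fun g s _ => measure_preimage_smul volume (g : GL (Fin 2) ℝ) s⟩
  have tr : ∀ z : ℍ, ∃ h : SL2, h • (I : ℍ) = z := fun z => MulAction.exists_smul_eq SL2 I z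
  set B : Set ℍ := Metric.closedBall I 1 with hB
  have hBm : MeasurableSet B := Metric.isClosed_closedBall.measurableSet
  have hBc : IsCompact B := isCompact_closedBall _ _
  have c1 : Continuous fun g : SL2 => g • (I : ℍ) := by fun_prop
  have c2 : Continuous fun g : SL2 => g⁻¹ • (I : ℍ) := by fun_prop
  set c : ℝ≥0∞ := μ {g | g⁻¹ • (I : ℍ) ∈ B} with hc
  have hc1 : c ≠ ⊤ := by
    have : IsCompact {g : SL2 | g⁻¹ • (I : ℍ) ∈ B} :=
      (Homeomorph.inv SL2).isCompact_preimage.2 (isProperMap_smul_I.isCompact_preimage hBc)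
    exact this.measure_lt_top.ne
  have hc0 : c ≠ 0 := by
    have o : IsOpen {g : SL2 | g⁻¹ • (I : ℍ) ∈ Metric.ball I 1} := Metric.isOpen_ball.preimage c2
    refine ne_of_gt (lt_of_lt_of_le (o.measure_pos μ ⟨1, by simp⟩) (measure_mono fun g hg => ?_))
    exact Metric.ball_subset_closedBall hg
  have key : ∀ A : Set ℍ, MeasurableSet A →
      μ {g | g • (I : ℍ) ∈ A} * volume B = volume A * c := by
    intro A hA
    have cs : Continuous fun p : SL2 × ℍ => p.1 • p.2 := continuous_smul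
    have hm : Measurable fun p : SL2 × ℍ => A.indicator (1 : ℍ → ℝ≥0∞) (p.1 • p.2) *
        B.indicator (1 : ℍ → ℝ≥0∞) p.2 :=
      ((measurable_one.indicator hA).comp cs.measurable).mul
        ((measurable_one.indicator hBm).comp measurable_snd)
    have cs' : Continuous fun p : SL2 × ℍ => p.1⁻¹ • p.2 := by fun_prop
    have hm' : Measurable fun p : SL2 × ℍ => A.indicator (1 : ℍ → ℝ≥0∞) p.2 *
        B.indicator (1 : ℍ → ℝ≥0∞) (p.1⁻¹ • p.2) :=
      ((measurable_one.indicator hA).comp measurable_snd).mul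
        ((measurable_one.indicator hBm).comp cs'.measurable)
    have e1 : ∀ z : ℍ, ∫⁻ g : SL2, A.indicator (1 : ℍ → ℝ≥0∞) (g • z) * B.indicator 1 z ∂μ =
        μ {g | g • (I : ℍ) ∈ A} * B.indicator 1 z := by
      intro z
      obtain ⟨h, rfl⟩ := tr z
      have q : Measurable fun g : SL2 => A.indicator (1 : ℍ → ℝ≥0∞) (g • h • (I : ℍ)) :=
        (measurable_one.indicator hA).comp
          (by fun_prop : Continuous fun g : SL2 => g • h • (I : ℍ)).measurable
      rw [lintegral_mul_const _ q]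
      congr 1
      simp_rw [← mul_smul]
      rw [lintegral_mul_right_eq_self (fun g : SL2 => A.indicator (1 : ℍ → ℝ≥0∞) (g • (I : ℍ))) h]
      exact lintegral_indicator_one (c1.measurable hA)
    have e2 : ∀ w : ℍ, ∫⁻ g : SL2, A.indicator (1 : ℍ → ℝ≥0∞) w * B.indicator 1 (g⁻¹ • w) ∂μ =
        A.indicator 1 w * c := by
      intro w
      obtain ⟨h, rfl⟩ := tr w
      have q : Measurable fun g : SL2 => B.indicator (1 : ℍ → ℝ≥0∞) (g⁻¹ • h • (I : ℍ)) :=
        (measurable_one.indicator hBm).comp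
          (by fun_prop : Continuous fun g : SL2 => g⁻¹ • h • (I : ℍ)).measurable
      rw [lintegral_const_mul _ q]
      congr 1
      have : ∀ g : SL2, g⁻¹ • h • (I : ℍ) = (h⁻¹ * g)⁻¹ • (I : ℍ) := fun g => by
        rw [← mul_smul]; simp
      simp_rw [this]
      rw [lintegral_mul_left_eq_self (fun g : SL2 => B.indicator (1 : ℍ → ℝ≥0∞) (g⁻¹ • (I : ℍ))) h⁻¹]
      exact lintegral_indicator_one (c2.measurable hBm)
    have e3 : ∀ g : SL2, ∫⁻ z : ℍ, A.indicator (1 : ℍ → ℝ≥0∞) (g • z) * B.indicator 1 z =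
        ∫⁻ w : ℍ, A.indicator (1 : ℍ → ℝ≥0∞) w * B.indicator 1 (g⁻¹ • w) := by
      intro g
      have := (measurePreserving_smul g (volume : Measure ℍ)).lintegral_comp_emb
        (measurableEmbedding_const_smul g)
        (fun w => A.indicator (1 : ℍ → ℝ≥0∞) w * B.indicator 1 (g⁻¹ • w))
      simpa using this
    calc _ = ∫⁻ z : ℍ, μ {g | g • (I : ℍ) ∈ A} * B.indicator 1 z := by
          rw [lintegral_const_mul _ (measurable_one.indicator hBm), lintegral_indicator_one hBm]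
      _ = ∫⁻ z : ℍ, ∫⁻ g : SL2, A.indicator (1 : ℍ → ℝ≥0∞) (g • z) * B.indicator 1 z ∂μ := by
          simp_rw [e1]
      _ = ∫⁻ g : SL2, ∫⁻ z : ℍ, A.indicator (1 : ℍ → ℝ≥0∞) (g • z) * B.indicator 1 z ∂volume ∂μ :=
          (lintegral_lintegral_swap hm.aemeasurable).symm
      _ = ∫⁻ g : SL2, ∫⁻ w : ℍ, A.indicator (1 : ℍ → ℝ≥0∞) w * B.indicator 1 (g⁻¹ • w) ∂volume ∂μ := by
          simp_rw [e3]
      _ = ∫⁻ w : ℍ, ∫⁻ g : SL2, A.indicator (1 : ℍ → ℝ≥0∞) w * B.indicator 1 (g⁻¹ • w) ∂μ :=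
          lintegral_lintegral_swap hm'.aemeasurable
      _ = _ := by
          simp_rw [e2]
          rw [lintegral_mul_const _ (measurable_one.indicator hA), lintegral_indicator_one hA]
  refine ⟨(volume B / c) • μ, inferInstance, inferInstance, c1.measurable, Measure.ext fun A hA => ?_⟩
  rw [map_apply c1.measurable hA, Measure.smul_apply, smul_eq_mul]
  have := key A hA
  change volume B / c * μ {g | g • (I : ℍ) ∈ A} = _
  rw [div_eq_mul_inv, mul_right_comm, mul_comm (volume B), this, mul_assoc,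
    ENNReal.mul_inv_cancel hc0 hc1, mul_one]

/-- every sequence of probability measures has a subsequence converging against the
`Λ`-invariant bounded continuous functions, when `Λ` is countable and cocompact -/
theorem mu_ex (Λ : Set SL2) (hc : Λ.Countable) (K : Set SL2)
    (hK : IsCompact K) (hcov : ∀ g, ∃ γ ∈ Λ, γ * g ∈ K) (m : ℕ → Measure SL2)
    [∀ j, IsProbabilityMeasure (m j)] :
    ∃ (μ : Measure SL2) (s : ℕ → ℕ), IsProbabilityMeasure μ ∧ StrictMono s ∧
      ∀ F : SL2 → ℝ, Continuous F → (∃ B, ∀ g, |F g| ≤ B) → (∀ γ ∈ Λ, ∀ g, F (γ * g) = F g) →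
        Tendsto (fun j => ∫ g, F g ∂m (s j)) atTop (𝓝 (∫ g, F g ∂μ)) := by
  classical
  have := borel_SL2
  have := wit_lc
  have := wit_sc
  obtain ⟨γ0, h0, -⟩ := hcov 1
  obtain ⟨e, he⟩ := hc.exists_eq_range ⟨γ0, h0⟩
  have hex : ∀ g, ∃ n, e n * g ∈ K := fun g => by
    obtain ⟨γ, hγ, h⟩ := hcov g
    rw [he] at hγ
    obtain ⟨n, rfl⟩ := hγ
    exact ⟨n, h⟩
  have hm : ∀ n, Measurable fun g : SL2 => e n * g := fun n => (continuous_const_mul _).measurable
  have hs : Measurable fun g => e (Nat.find (hex g)) * g :=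
    Measurable.find (f := fun n g => e n * g) hm (fun n => hm n hK.isClosed.measurableSet) hex
  let m' : ℕ → ProbabilityMeasure SL2 := fun j =>
    ⟨(m j).map fun g => e (Nat.find (hex g)) * g, isProbabilityMeasure_map hs.aemeasurable⟩
  have hC := isCompact_setOfPred_probabilityMeasure_mass_eq_compl_isCompact_le (E := SL2)
    (u := fun _ => 0) (K := fun _ => K) tendsto_const_nhds (fun _ => hK) (Or.inr monotone_const)
  let _ : PseudoMetricSpace SL2 := TopologicalSpace.pseudoMetrizableSpacePseudoMetric SL2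
  obtain ⟨μ, -, s, hs1, hs2⟩ := hC.tendsto_subseq (x := m') (fun j n => by
    have : (m' j : Measure SL2) Kᶜ = 0 := by
      change ((m j).map fun g => e (Nat.find (hex g)) * g) Kᶜ = 0
      rw [map_apply hs hK.isClosed.measurableSet.compl]
      convert measure_empty (μ := m j)
      ext g
      simpa using Nat.find_spec (hex g)
    simp [ProbabilityMeasure.coeFn_def, this])
  refine ⟨μ, s, inferInstance, hs1, ?_⟩
  rintro F cF ⟨B, hB⟩ hF
  have := ProbabilityMeasure.tendsto_iff_forall_integral_tendsto.1 hs2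
    (BoundedContinuousFunction.ofNormedAddCommGroup F cF B hB)
  refine this.congr fun j => ?_
  change ∫ g, F g ∂((m (s j)).map fun g => e (Nat.find (hex g)) * g) = _
  rw [integral_map hs.aemeasurable cF.aestronglyMeasurable]
  exact integral_congr_ae (.of_forall fun g => hF _ (he ▸ ⟨_, rfl⟩) g)

lemma wit_quo {Γ : Type} [Group Γ] [Countable Γ] [MulAction Γ ℍ] {l : Γ → SL2}
    {D : Set ℍ} (h : FD l D) {ν : Measure SL2} [ν.IsMulLeftInvariant] [ν.IsMulRightInvariant]
    (hν : MeasurePreserving bp ν volume) : Quo (range l) (ν.restrict (bp ⁻¹' D)) := by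
  have ev : ∀ k : SL2, Eqv ν (fun (γ : Γ) (g : SL2) => l γ * g) fun g => bp (g * k) :=
    fun k => ⟨fun γ => measurePreserving_mul_left ν _,
      (hν.comp (measurePreserving_mul_right ν k)).quasiMeasurePreserving,
      fun γ g => by rw [mul_assoc, bp_mul, h.act]⟩
  refine ⟨⟨?_⟩, fun F mF hi k => ?_⟩
  · rw [Measure.restrict_apply_univ, hν.measure_preimage h.meas.nullMeasurableSet]
    exact h.fin.lt_top
  · have e1 := Eqv.transport h (ev 1) (ev k⁻¹) mF fun γ g => hi _ ⟨γ, rfl⟩ g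
    have e2 := (measurePreserving_mul_right ν k).setLIntegral_comp_preimage
      ((ev k⁻¹).qmp.measurable h.meas) mF
    have e3 : (fun x => x * k) ⁻¹' ((fun g => bp (g * k⁻¹)) ⁻¹' D) = bp ⁻¹' D := by
      ext g; simp
    simp only [mul_one] at e1
    rw [e3] at e2
    exact e2.trans e1.symm

lemma wit_bdd {Γ : Type} [Group Γ] [MulAction Γ ℍ] {K : Set ℍ} (hK : IsCompact K)
    (hc : ∀ z : ℍ, ∃ γ : Γ, γ • z ∈ K) {f : ℍ → ℝ} (cf : Continuous f)
    (hf : ∀ (γ : Γ) (z : ℍ), f (γ • z) = f z) : ∃ B, ∀ z, |f z| ≤ B := by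
  obtain ⟨B, hB⟩ := hK.exists_bound_of_continuousOn cf.continuousOn
  refine ⟨B, fun z => ?_⟩
  obtain ⟨γ, hγ⟩ := hc z
  rw [← hf γ]; exact hB _ hγ

theorem lift_ex {Γ : Type} [Group Γ] [Countable Γ] [MulAction Γ ℍ] {l : Γ → SL2} {D : Set ℍ}
    (h : FD l D) {K : Set ℍ} (hK : IsCompact K) (hcov : ∀ z : ℍ, ∃ γ : Γ, γ • z ∈ K)
    {ν : Measure SL2} [ν.IsMulLeftInvariant] [ν.IsMulRightInvariant]
    (hν : MeasurePreserving bp ν volume) {φ : ℕ → ℍ → ℝ} {r : ℕ → ℝ}
    (hr : Tendsto r atTop atTop) (h1 : ∀ j (γ : Γ) (z : ℍ), φ j (γ • z) = φ j z)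
    (h2 : ∀ j, ContDiffOn ℝ ∞ (fun w : ℂ => φ j (ofComplex w)) {w | 0 < w.im})
    (h3 : ∀ j (z : ℂ), 0 < z.im → z.im ^ 2 * Δ (fun w : ℂ => φ j (ofComplex w)) z
      = -(1 / 4 + r j ^ 2) * φ j (ofComplex z))
    (h4 : ∀ j, ∫ z in D, φ j z ^ 2 = 1) :
    ∃ (μ : Measure SL2) (s : ℕ → ℕ), IsProbabilityMeasure μ ∧ StrictMono s ∧
      ∀ F : SL2 → ℝ, Continuous F → (∃ B, ∀ g, |F g| ≤ B) →
      (∀ γ ∈ Lam Γ, ∀ g, F (γ * g) = F g) →
      Tendsto (fun j => (∫ g in bp ⁻¹' D, F g * ‖lift (φ (s j)) (r (s j)) g‖ ^ 2 ∂ν) /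
        ∫ g in bp ⁻¹' D, ‖lift (φ (s j)) (r (s j)) g‖ ^ 2 ∂ν) atTop (𝓝 (∫ g, F g ∂μ)) := by
  have := borel_SL2
  have Q := wit_quo h hν
  have mp : MeasurePreserving bp (ν.restrict (bp ⁻¹' D)) (volume.restrict D) :=
    hν.restrict_preimage h.meas
  have hφ : ∀ j, Continuous (φ j) := fun j => by
    have := (h2 j).continuousOn.comp_continuous continuous_coe fun z => z.im_pos
    simpa [Function.comp_def] using this
  have m2 : ∀ j, Measurable fun z => φ j z ^ 2 := fun j => ((hφ j).pow 2).measurable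
  have R : ∀ j, Rep (range l) (ν.restrict (bp ⁻¹' D)) (φ j) (r j) := fun j => by
    refine ⟨Q, hφ j, wit_bdd hK hcov (hφ j) (h1 j), ?_, ?_, fun g h' => ?_⟩
    · rintro _ ⟨γ, rfl⟩ z
      rw [← h.act, h1]
    · rw [← h4 j, ← mp.map_eq,
        integral_map mp.measurable.aemeasurable (m2 j).aestronglyMeasurable]
    · rw [mean_value (h2 j) (h3 j), om_eq]
  obtain ⟨r₀, A⟩ := anc_rep (ε := 1 / 2) (by positivity)
  obtain ⟨j₀, hj⟩ := eventually_atTop.1 (hr.eventually_ge_atTop r₀)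
  set ρ := ν.restrict (bp ⁻¹' D) with hρ
  let Z : ℕ → ℝ := fun j => ∫ g, ‖lift (φ (j + j₀)) (r (j + j₀)) g‖ ^ 2 ∂ρ
  have Z0 : ∀ j, Z j ≠ 0 := fun j hz => by
    have := A _ (hj (j + j₀) (by omega)) _ _ _ (R (j + j₀)) (fun _ => 1)
      ((LipschitzWith.const _).weaken (by norm_num)) (by simp) (by simp)
    simp only [one_mul, (R (j + j₀)).one] at this
    change |Z j / Z j - 1| ≤ _ at this
    rw [hz] at this
    norm_num at this
  have Zp : ∀ j, 0 < Z j := fun j =>
    lt_of_le_of_ne (integral_nonneg fun g => by positivity) (Z0 j).symm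
  have iZ : ∀ j, Integrable (fun g => ‖lift (φ (j + j₀)) (r (j + j₀)) g‖ ^ 2 / Z j) ρ :=
    fun j => (Integrable.of_integral_ne_zero (Z0 j)).div_const _
  let w : ℕ → SL2 → ℝ≥0 := fun j g => (‖lift (φ (j + j₀)) (r (j + j₀)) g‖ ^ 2 / Z j).toNNReal
  have wm : ∀ j, AEMeasurable (w j) ρ := fun j => (iZ j).aemeasurable.real_toNNReal
  have wv : ∀ j g, (w j g : ℝ) = ‖lift (φ (j + j₀)) (r (j + j₀)) g‖ ^ 2 / Z j := fun j g =>
    Real.coe_toNNReal _ (div_nonneg (by positivity) (Zp j).le)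
  let m : ℕ → Measure SL2 := fun j => ρ.withDensity fun g => w j g
  have pm : ∀ j, IsProbabilityMeasure (m j) := fun j => ⟨by
    simp only [m, withDensity_apply _ MeasurableSet.univ, Measure.restrict_univ]
    have := ofReal_integral_eq_lintegral_ofReal (iZ j)
      (.of_forall fun g => div_nonneg (by positivity) (Zp j).le)
    rw [integral_div, div_self (Z0 j), ENNReal.ofReal_one] at this
    exact this.symm⟩
  obtain ⟨μ, s, p1, p2, p3⟩ := mu_ex (range l) (countable_range l) (bp ⁻¹' K)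
    (isProperMap_smul_I.isCompact_preimage hK) (fun g => by
      obtain ⟨γ, hγ⟩ := hcov (bp g)
      exact ⟨l γ, ⟨γ, rfl⟩, by rw [mem_preimage, bp_mul, ← h.act]; exact hγ⟩) m
  refine ⟨μ, fun j => s j + j₀, p1, fun i j hij => by simpa using p2 hij, fun F c1 c2 c3 => ?_⟩
  refine (p3 F c1 c2 (by rintro _ ⟨γ, rfl⟩; exact c3 _ ⟨γ, h.act γ⟩)).congr fun j => ?_
  rw [integral_withDensity_eq_integral_smul₀ (wm _), ← integral_div]
  refine integral_congr_ae (.of_forall fun g => ?_)
  simp only [NNReal.smul_def, smul_eq_mul, wv]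
  ring

end Pool.Agent.Lib.MP_a52643_an.AC
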