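import Pool.Agent.Lib.MP_a52643_an.AC.Main
import Pool.Agent.Lib.MP_a52643_an.AC.Half
import Pool.Agent.Lib.MP_a52643_an.AC.Wit
import Pool.Agent.Lib.MP_a52643_an.SE.Inv3

/-!
Null sets carry at most one half of the mass of a limit of squares of eigenfunctions.
-/

open MeasureTheory Set Filter Topology Metric UpperHalfPlane
open scoped ENNReal MatrixGroups ContDiff Laplacian

noncomputable section

namespace Pool.Agent.Lib.MP_a52643_an.AC

open SE NS

variable {Γ : Type} [Group Γ] [MulAction Γ ℍ] {e : ℝ}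

/-- two finite measures with the same integrals of invariant continuous functions agree on closed
invariant sets -/
lemma fin_closed (H : Act Γ e) {m₁ m₂ : Measure ℍ} [IsFiniteMeasure m₁] [IsFiniteMeasure m₂]
    (h : ∀ f : ℍ → ℝ, Continuous f → (∀ (γ : Γ) (z : ℍ), f (γ • z) = f z) →
      ∫ z, f z ∂m₁ = ∫ z, f z ∂m₂) {F : Set ℍ} (cF : IsClosed F)
    (iF : ∀ (γ : Γ) (z : ℍ), γ • z ∈ F ↔ z ∈ F) : m₁.real F ≤ m₂.real F := by
  rcases F.eq_empty_or_nonempty with rfl | ne
  · simp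
  have hi : ∀ (γ : Γ) (z : ℍ), infDist (γ • z) F = infDist z F := fun γ z => by
    have iso : Isometry fun z : ℍ => γ • z := Isometry.of_dist_eq (H.iso γ)
    have im : (fun z : ℍ => γ • z) '' F = F := by
      ext w
      constructor
      · rintro ⟨z, hz, rfl⟩; exact (iF γ z).2 hz
      · intro hw; exact ⟨γ⁻¹ • w, (iF γ⁻¹ w).2 hw, by simp⟩
    have := infDist_image iso (x := z) (t := F)
    rwa [im] at this
  have lim : Tendsto (fun r => m₂.real (cthickening r F)) (𝓝[>] 0) (𝓝 (m₂.real F)) :=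
    ((ENNReal.tendsto_toReal (measure_ne_top _ _)).comp (tendsto_measure_cthickening_of_isClosed
      ⟨1, one_pos, measure_ne_top _ _⟩ cF)).mono_left nhdsWithin_le_nhds
  refine ge_of_tendsto lim (eventually_nhdsWithin_of_forall fun r (r0 : 0 < r) => ?_)
  let f : ℍ → ℝ := fun z => max 0 (1 - infDist z F / r)
  have cf : Continuous f := continuous_const.max
    (continuous_const.sub ((continuous_infDist_pt F).div_const _))
  have f1 : ∀ z, f z ≤ 1 := fun z => max_le zero_le_one (by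
    have : 0 ≤ infDist z F / r := div_nonneg infDist_nonneg r0.le
    linarith)
  have fi : ∀ (m : Measure ℍ) [IsFiniteMeasure m], Integrable f m := fun m _ =>
    (integrable_const (1 : ℝ)).mono' cf.aestronglyMeasurable (.of_forall fun z => by
      rw [Real.norm_eq_abs, abs_of_nonneg (le_max_left _ _)]; exact f1 z)
  calc m₁.real F = ∫ z, F.indicator 1 z ∂m₁ := (integral_indicator_one cF.measurableSet).symm
    _ ≤ ∫ z, f z ∂m₁ := by
        refine integral_mono ((integrable_const (1 : ℝ)).indicator cF.measurableSet) (fi _)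
          fun z => ?_
        by_cases hz : z ∈ F
        · simp [f, hz, infDist_zero_of_mem hz]
        · simp [f, hz]
    _ = ∫ z, f z ∂m₂ := h f cf fun γ z => by simp only [f, hi]
    _ ≤ ∫ z, (cthickening r F).indicator 1 z ∂m₂ := by
        refine integral_mono (fi _) ((integrable_const (1 : ℝ)).indicator
          isClosed_cthickening.measurableSet) fun z => ?_
        by_cases hz : z ∈ cthickening r F
        · simpa [hz] using f1 z
        · rw [indicator_of_notMem hz]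
          refine max_le le_rfl ?_
          rw [sub_nonpos, le_div_iff₀ r0, one_mul]
          by_contra hc
          exact hz (thickening_subset_cthickening _ _
            ((mem_thickening_iff_infDist_lt ne).2 (not_le.1 hc)))
    _ = _ := integral_indicator_one isClosed_cthickening.measurableSet

theorem half_ac [Countable Γ] {l : Γ → SL2} {D : Set ℍ} (hF : FD l D)
    (hfree : ∀ (γ : Γ) (z : ℍ), γ • z = z → γ = 1) {K : Set ℍ} (hK : IsCompact K)
    (hcov : ∀ z : ℍ, ∃ γ : Γ, γ • z ∈ K) {φ : ℕ → ℍ → ℝ} {r : ℕ → ℝ}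
    (hr : Tendsto r atTop atTop) (h1 : ∀ j (γ : Γ) (z : ℍ), φ j (γ • z) = φ j z)
    (h2 : ∀ j, ContDiffOn ℝ ∞ (fun w : ℂ => φ j (ofComplex w)) {w | 0 < w.im})
    (h3 : ∀ j (z : ℂ), 0 < z.im → z.im ^ 2 * Δ (fun w : ℂ => φ j (ofComplex w)) z
      = -(1 / 4 + r j ^ 2) * φ j (ofComplex z))
    (h4 : ∀ j, ∫ z in D, φ j z ^ 2 = 1) (m : Measure ℍ) [IsFiniteMeasure m]
    (hlim : ∀ f : ℍ → ℝ, Continuous f → (∀ (γ : Γ) (z : ℍ), f (γ • z) = f z) →
      Tendsto (fun j => ∫ z in D, f z * φ j z ^ 2) atTop (𝓝 (∫ z, f z ∂m)))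
    {Z : Set ℍ} (hZ : volume Z = 0) : m Z ≤ 1 / 2 := by
  obtain ⟨ε, ε0, H⟩ := exists_act hF hfree hK hcov
  obtain ⟨ν, n1, n2, hν⟩ := nu_ex
  obtain ⟨μ, s, pμ, hs, hl⟩ := lift_ex hF hK hcov hν hr h1 h2 h3 h4
  have hr' : Tendsto (fun j => r (s j)) atTop atTop := hr.comp hs.tendsto_atTop
  have hμ := exists_apx (μ := μ) (φ := fun j => φ (s j)) hF hK hcov hν hr' (fun j => h1 _)
    (fun j => h2 _) (fun j => h3 _) (fun j => h4 _) hl
  have sub : range l ⊆ Lam Γ := by rintro _ ⟨γ, rfl⟩; exact ⟨γ, hF.act γ⟩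
  have hinv := Apx.inv H (fun γ => ⟨l γ, hF.act γ⟩) sub hμ
  have he : ∀ f : ℍ → ℝ, Continuous f → (∀ (γ : Γ) (z : ℍ), f (γ • z) = f z) →
      ∫ z, f z ∂m = ∫ z, f z ∂μ.map bp := fun f cf hf => by
    rw [integral_map measurable_bp.aemeasurable cf.aestronglyMeasurable]
    exact tendsto_nhds_unique ((hlim f cf hf).comp hs.tendsto_atTop)
      (anchor (μ := μ) (φ := fun j => φ (s j)) hF hK hcov hν hr' (fun j => h1 _)
        (fun j => h2 _) (fun j => h3 _) (fun j => h4 _) hl cf hf)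
  refine (measure_mono (subset_toMeasurable volume Z)).trans ?_
  rw [← measure_toMeasurable] at hZ
  rw [(measurableSet_toMeasurable volume Z).measure_eq_iSup_isCompact_of_ne_top
    (measure_ne_top m _)]
  refine iSup_le fun F => iSup_le fun hFZ => iSup_le fun cF => ?_
  have cl := orbit_closed H ε0 cF
  have iF : ∀ (γ : Γ) (z : ℍ), γ • z ∈ {z : ℍ | ∃ γ : Γ, γ • z ∈ F} ↔
      z ∈ {z : ℍ | ∃ γ : Γ, γ • z ∈ F} := fun γ z =>
    ⟨fun ⟨δ, h⟩ => ⟨δ * γ, by rwa [mul_smul]⟩, fun ⟨δ, h⟩ => ⟨δ * γ⁻¹, by simpa [mul_smul]⟩⟩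
  have nl : volume {z : ℍ | ∃ γ : Γ, γ • z ∈ F} = 0 := by
    rw [ofPred_exists]
    exact measure_iUnion_null fun γ =>
      (hF.mp γ).quasiMeasurePreserving.preimage_null (measure_mono_null hFZ hZ)
  have k1 := fin_closed H he cl iF
  rw [map_measureReal_apply measurable_bp cl.measurableSet] at k1
  have k2 : μ.real (bp ⁻¹' {z : ℍ | ∃ γ : Γ, γ • z ∈ F}) ≤ 1 / 2 :=
    le_of_forall_pos_le_add fun η η0 => by
      obtain ⟨N, τ, c, δ, τ0, δ0, mc, ic, hH⟩ := half H ε0 hK hcov sub hμ hinv η0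
      exact null_le H ε0 μ hinv τ0 δ0 mc ic hH cl.measurableSet iF nl
  refine (measure_mono fun z hz => (⟨1, by rwa [one_smul]⟩ : z ∈ {z : ℍ | ∃ γ : Γ, γ • z ∈ F})).trans ?_
  rw [← ofReal_measureReal (measure_ne_top m _)]
  refine (ENNReal.ofReal_le_ofReal (k1.trans k2)).trans (le_of_eq ?_)
  rw [ENNReal.ofReal_div_of_pos two_pos]; simp

end Pool.Agent.Lib.MP_a52643_an.AC
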