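import Pool.Agent.Lib.MP_a52643_an.NS.Defs

/-!
Two nearby geodesic segments are close only for a short time.
-/

open MeasureTheory Set Filter Topology Metric UpperHalfPlane
open scoped MatrixGroups ENNReal

noncomputable section

namespace Pool.Agent.Lib.MP_a52643_an.AC

open NS

private lemma geo_slope {s t : ℝ} (hs : s ≤ 1) (ht : t ≤ 1) :
    2 / 9 * |s - t| ≤ |Real.exp (-s) ^ 2 - Real.exp (-t) ^ 2| := by
  wlog h : s ≤ t generalizing s t
  · rw [abs_sub_comm s, abs_sub_comm (Real.exp (-s) ^ 2)]; exact this ht hs (by linarith)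
  have h1 : 1 / 3 ≤ Real.exp (-t) := by
    refine le_trans ?_ (Real.exp_le_exp.2 (neg_le_neg ht))
    rw [Real.exp_neg, one_div]
    exact inv_anti₀ (Real.exp_pos 1) (by linarith [Real.exp_one_lt_d9])
  have h2 : Real.exp (-s) = Real.exp (-t) * Real.exp (t - s) := by
    rw [← Real.exp_add]; ring_nf
  have h3 := Real.add_one_le_exp (t - s)
  have h4 : 2 * (t - s) ≤ Real.exp (t - s) ^ 2 - 1 := by nlinarith
  rw [abs_sub_comm, abs_of_nonneg (by linarith)]
  refine le_trans ?_ (le_abs_self _)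
  rw [h2, mul_pow]
  have h5 : 1 / 9 ≤ Real.exp (-t) ^ 2 := by nlinarith
  nlinarith [mul_le_mul h5 h4 (by linarith) (by positivity)]

private lemma geo_len {A B η ρ : ℝ} (η0 : 0 < η) (ρ0 : 0 < ρ)
    (h : 9 / 10 * ρ ≤ max |A| |B|) :
    volume {s ∈ Icc (0 : ℝ) 1 | |B + A * Real.exp (-s) ^ 2| ≤ 2 * η}
      ≤ ENNReal.ofReal (40 * η / ρ) := by
  set T := {s ∈ Icc (0 : ℝ) 1 | |B + A * Real.exp (-s) ^ 2| ≤ 2 * η} with hT
  rcases le_or_gt |B| (2 * |A|) with hc | hc
  · have a0 : 9 / 10 * ρ ≤ 2 * |A| := h.trans (max_le (by linarith [abs_nonneg A]) hc)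
    refine (Real.volume_le_diam _).trans (ediam_le fun s hs t ht => ?_)
    rw [edist_dist, Real.dist_eq]
    refine ENNReal.ofReal_le_ofReal ?_
    have h1 := geo_slope hs.1.2 ht.1.2
    have h2 : |A| * |Real.exp (-s) ^ 2 - Real.exp (-t) ^ 2| ≤ 4 * η := by
      rw [← abs_mul, show A * (Real.exp (-s) ^ 2 - Real.exp (-t) ^ 2)
        = (B + A * Real.exp (-s) ^ 2) - (B + A * Real.exp (-t) ^ 2) by ring]
      linarith [abs_sub (B + A * Real.exp (-s) ^ 2) (B + A * Real.exp (-t) ^ 2), hs.2, ht.2]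
    rw [le_div_iff₀ ρ0]
    nlinarith [mul_le_mul a0 h1 (by positivity) (by positivity)]
  · rcases T.eq_empty_or_nonempty with e | ⟨s, hs⟩
    · simp [e]
    have y1 : Real.exp (-s) ^ 2 ≤ 1 :=
      pow_le_one₀ (Real.exp_pos _).le (Real.exp_le_one_iff.2 (by linarith [hs.1.1]))
    have h1 : |A * Real.exp (-s) ^ 2| ≤ |A| := by
      rw [abs_mul, abs_of_nonneg (sq_nonneg (Real.exp (-s)))]
      exact mul_le_of_le_one_right (abs_nonneg _) y1
    have h2 := abs_sub (B + A * Real.exp (-s) ^ 2) (A * Real.exp (-s) ^ 2)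
    rw [add_sub_cancel_right] at h2
    have h3 : max |A| |B| ≤ 4 * η := max_le (by linarith [hs.2]) (by linarith [hs.2])
    refine (measure_mono (sep_subset _ _)).trans ?_
    rw [Real.volume_Icc]
    refine ENNReal.ofReal_le_ofReal ?_
    rw [le_div_iff₀ ρ0]; linarith

theorem pair_len : ∃ C : ℝ, 0 < C ∧ ∀ (u : SL2) (η : ℝ), |ea u - 1| ≤ 1 / 10 → |eb u| ≤ 1 / 10 →
    |ec u| ≤ 1 / 10 → |ed u - 1| ≤ 1 / 10 → 0 < η → η ≤ 1 →
    ∫⁻ s in Icc (0 : ℝ) 1, volume {t ∈ Icc (0 : ℝ) 1 | dist (bp (aG t)) (bp (u * aG s)) < η}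
      ≤ ENNReal.ofReal (C * η ^ 2) * (ENNReal.ofReal (max |eb u| |ec u|))⁻¹ := by
  refine ⟨80, by norm_num, fun u η h1 _ _ h4 η0 η1 => ?_⟩
  set ρ := max |eb u| |ec u| with hρ
  rcases (show 0 ≤ ρ from le_max_of_le_left (abs_nonneg _)).eq_or_lt with ρ0 | ρ0
  · rw [← ρ0, ENNReal.ofReal_zero, ENNReal.inv_zero, ENNReal.mul_top (by simpa using η0.ne')]
    exact le_top
  set T := {s ∈ Icc (0 : ℝ) 1 | |eb u * ed u + ea u * ec u * Real.exp (-s) ^ 2| ≤ 2 * η} with hT
  have hs : Real.sinh η ≤ 2 * η := by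
    have a := abs_le.1 (Real.abs_exp_sub_one_sub_id_le (x := η) (by rwa [abs_of_pos η0]))
    have b := Real.add_one_le_exp (-η)
    rw [Real.sinh_eq]; nlinarith
  have hv : volume T ≤ ENNReal.ofReal (40 * η / ρ) := by
    refine geo_len η0 ρ0 ?_
    have a1 : 9 / 10 ≤ |ea u| := le_trans (by linarith [abs_le.1 h1]) (le_abs_self _)
    have a4 : 9 / 10 ≤ |ed u| := le_trans (by linarith [abs_le.1 h4]) (le_abs_self _)
    rw [hρ, mul_max_of_nonneg _ _ (by norm_num), abs_mul, abs_mul]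
    exact max_le (le_max_of_le_right (by nlinarith [abs_nonneg (eb u)]))
      (le_max_of_le_left (by nlinarith [abs_nonneg (ec u)]))
  calc _ ≤ ∫⁻ s in Icc (0 : ℝ) 1, T.indicator (fun _ => ENNReal.ofReal (2 * η)) s := by
        refine setLIntegral_mono' measurableSet_Icc fun s h => ?_
        rw [bp_mul, bp_aG s]
        set w := u • pt 0 (-s) with hw
        by_cases c : s ∈ T
        · rw [indicator_of_mem c, ← Real.volume_ball (-Real.log w.im)]
          refine measure_mono fun t ht => ?_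
          have := (dist_log_im_le _ _).trans_lt ht.2
          rw [bp_aG, pt_im, Real.log_exp] at this
          rwa [mem_ball, ← dist_neg_neg, neg_neg]
        · refine le_of_eq_of_le ?_ zero_le
          convert measure_empty (μ := (volume : Measure ℝ))
          refine eq_empty_of_forall_notMem fun t ht => c ⟨h, ?_⟩
          have a : Nr η w := ⟨-t, by rw [dist_comm, ← bp_aG]; exact ht.2⟩
          have b := a.re_le
          have e := congrArg abs (re_act u 0 (-s))
          rw [← hw, abs_mul, abs_mul, abs_of_pos w.im_pos, abs_of_pos (Real.exp_pos _),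
            mul_zero, mul_zero, zero_add, zero_add] at e
          have y1 : Real.exp (-s) ≤ 1 := Real.exp_le_one_iff.2 (by linarith [h.1])
          refine le_of_mul_le_mul_right ?_ w.im_pos
          rw [← e]
          exact (mul_le_of_le_one_right (abs_nonneg _) y1).trans
            (b.trans (mul_le_mul_of_nonneg_right hs w.im_pos.le))
    _ ≤ ENNReal.ofReal (2 * η) * volume T :=
        (setLIntegral_le_lintegral _ _).trans (lintegral_indicator_const_le _ _)
    _ ≤ ENNReal.ofReal (2 * η) * ENNReal.ofReal (40 * η / ρ) := by gcongr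
    _ = _ := by
        rw [← ENNReal.ofReal_inv_of_pos ρ0, ← ENNReal.ofReal_mul (by positivity),
          ← ENNReal.ofReal_mul (by positivity)]
        congr 1; ring

end Pool.Agent.Lib.MP_a52643_an.AC
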