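import Pool.Agent.Lib.MP_a52643_an.AC.Smb

/-!
From names to tubes: counting the words in a Hamming ball.
-/

open MeasureTheory Set Filter

noncomputable section

namespace Pool.Agent.Lib.MP_a52643_an.AC

open Classical in
theorem hamming (S : Type) [Fintype S] {γ : ℝ} (γ0 : 0 < γ) : ∃ β > (0 : ℝ),
    ∀ (ι : Type) [Fintype ι] (w₀ : ι → S),
      ((Finset.univ.filter fun w : ι → S =>
        ((Finset.univ.filter fun i => w i ≠ w₀ i).card : ℝ) ≤ β * Fintype.card ι).card : ℝ)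
        ≤ Real.exp (γ * Fintype.card ι) := by
  obtain ⟨t, ht⟩ : ∃ t : ℝ, t = γ / (2 * Fintype.card S + 2 * γ) := ⟨_, rfl⟩
  have hN : (0 : ℝ) ≤ Fintype.card S := Nat.cast_nonneg _
  have t0 : 0 < t := by rw [ht]; positivity
  have t1 : t < 1 := by rw [ht, div_lt_one (by positivity)]; linarith
  have tN : t * Fintype.card S ≤ γ / 2 := by
    rw [ht, div_mul_eq_mul_div, div_le_div_iff₀ (by positivity) two_pos]
    nlinarith
  have l0 : 0 < -Real.log t := neg_pos.2 (Real.log_neg t0 t1)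
  refine ⟨γ / (2 * -Real.log t), by positivity, fun ι _ w₀ => ?_⟩
  have hL : (0 : ℝ) ≤ Fintype.card ι := Nat.cast_nonneg _
  let f : (ι → S) → ℝ := fun w => ∏ i, if w i ≠ w₀ i then t else 1
  have f0 : ∀ w, 0 ≤ f w := fun w => Finset.prod_nonneg fun i _ => by split_ifs <;> positivity
  have h1 : ∑ w, f w ≤ Real.exp (γ / 2 * Fintype.card ι) := by
    have e := Finset.prod_univ_sum (fun _ : ι => (Finset.univ : Finset S))
      fun i s => if s ≠ w₀ i then t else (1 : ℝ)
    rw [Fintype.piFinset_univ] at e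
    rw [← e, mul_comm, Real.exp_nat_mul, ← Finset.card_univ, ← Finset.prod_const]
    refine Finset.prod_le_prod
      (fun i _ => Finset.sum_nonneg fun s _ => by split_ifs <;> positivity) fun i _ => ?_
    have a1 : ∑ s, (if s ≠ w₀ i then t else (1 : ℝ)) ≤ ∑ s, (t + if s = w₀ i then 1 else 0) :=
      Finset.sum_le_sum fun s _ => by by_cases h : s = w₀ i <;> simp [h, t0.le]
    rw [Finset.sum_add_distrib, Finset.sum_ite_eq', if_pos (Finset.mem_univ _), Finset.sum_const,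
      Finset.card_univ, nsmul_eq_mul] at a1
    linarith [Real.add_one_le_exp (γ / 2)]
  have h2 : ∀ w ∈ Finset.univ.filter fun w : ι → S =>
      ((Finset.univ.filter fun i => w i ≠ w₀ i).card : ℝ)
        ≤ γ / (2 * -Real.log t) * Fintype.card ι, Real.exp (-(γ / 2 * Fintype.card ι)) ≤ f w := by
    intro w hw
    have a1 := mul_le_mul_of_nonneg_right (Finset.mem_filter.1 hw).2 l0.le
    have a2 : γ / (2 * -Real.log t) * Fintype.card ι * -Real.log t = γ / 2 * Fintype.card ι := by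
      have : Real.log t ≠ 0 := (Real.log_neg t0 t1).ne
      field_simp
    have a3 : f w = Real.exp ((Finset.univ.filter fun i => w i ≠ w₀ i).card * Real.log t) := by
      rw [Real.exp_nat_mul, Real.exp_log t0]
      simp only [f]
      rw [Finset.prod_ite, Finset.prod_const, Finset.prod_const_one, mul_one]
    rw [a3]
    exact Real.exp_le_exp.2 (by linarith)
  have h3 := (Finset.card_nsmul_le_sum _ _ _ h2).trans
    ((Finset.sum_le_sum_of_subset_of_nonneg (Finset.filter_subset _ _) fun w _ _ => f0 w).trans h1)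
  rw [nsmul_eq_mul, Real.exp_neg, ← div_eq_mul_inv, div_le_iff₀ (Real.exp_pos _),
    ← Real.exp_add] at h3
  refine h3.trans (le_of_eq ?_)
  congr 1
  ring

variable {Ω S : Type} [MeasurableSpace Ω] [Fintype S] {μ : Measure Ω} [IsProbabilityMeasure μ]
  {T : ℤ → Ω → Ω} {c : Ω → S}

theorem Fl.tubes (hT : Fl μ T) (hc : ∀ s, MeasurableSet {ω | c ω = s}) {h α q ε : ℝ} (hα : α < h)
    (ε0 : 0 < ε) (hH : ∃ᶠ n : ℕ in atTop, μ.real {ω | J μ T c 0 n ω ≤ h * n} ≤ q) :
    ∃ κ > (0 : ℝ), ∀ K : Set Ω, MeasurableSet K → μ.real Kᶜ ≤ κ →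
      ∃ (E : Set Ω) (n₁ : ℕ), MeasurableSet E ∧ 1 - q - ε ≤ μ.real E ∧
        ∀ n : ℕ, n₁ ≤ n → ∀ ω ∈ E,
          μ.real (E ∩ {ω' | ∀ j : ℤ, -(n : ℤ) ≤ j → j < n → T j ω ∈ K → T j ω' ∈ K →
            c (T j ω') = c (T j ω)}) ≤ Real.exp (-(α * (2 * n))) := by
  classical
  obtain ⟨β, β0, hβ⟩ := hamming S (γ := (h - α) / 2) (by linarith)
  obtain ⟨n₁, hn₁⟩ := hT.names hc (α := (α + h) / 2) (ε := ε / 2) (by linarith) (half_pos ε0) hH
  refine ⟨ε * β / 8, by positivity, fun K mK hK => ?_⟩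
  set A := {ω | ∀ n : ℕ, n₁ ≤ n →
    P μ T c (-(n : ℤ)) n ω ≤ Real.exp (-((α + h) / 2 * (2 * n)))} with hA
  set D := {ω | ∃ n : ℕ, β / 2 * (2 * n) <
    (((Finset.Ico (-(n : ℤ)) n).filter fun j => T j ω ∈ Kᶜ).card : ℝ)} with hD'
  have hD : μ.real D ≤ 2 * μ.real Kᶜ / (β / 2) := by
    have := hT.freq mK.compl (half_pos β0)
    rw [hD']
    simp only [Finset.card_filter] at this ⊢
    simpa only [mem_compl_iff, ite_not] using this
  have mA : MeasurableSet A := by
    rw [hA, ofPred_forall]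
    refine MeasurableSet.iInter fun n => ?_
    by_cases e : n₁ ≤ n
    · simp only [e, true_imp_iff]
      exact measurableSet_le (hT.meas_P hc _ _) measurable_const
    · simp [e]
  have mD : MeasurableSet D := by
    rw [hD', ofPred_exists]
    refine MeasurableSet.iUnion fun n => measurableSet_lt measurable_const ?_
    simp only [Finset.card_filter, Nat.cast_sum, Nat.cast_ite, Nat.cast_one, Nat.cast_zero]
    exact Finset.measurable_sum _ fun j _ =>
      Measurable.ite ((hT.mp j).measurable mK.compl) measurable_const measurable_const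
  refine ⟨A \ D, n₁, mA.diff mD, ?_, fun n hn ω hω => ?_⟩
  · have a1 : μ.real A ≤ μ.real (A \ D) + μ.real D :=
      (measureReal_mono (subset_sdiff_union A D)).trans (measureReal_union_le _ _)
    have a2 : 2 * μ.real Kᶜ / (β / 2) ≤ ε / 2 := by
      rw [div_le_iff₀ (half_pos β0)]
      linarith
    linarith
  let X : Ω → Finset.Ico (-(n : ℤ)) n → S := fun x j => c (T j x)
  have hc2 : (Fintype.card (Finset.Ico (-(n : ℤ)) n) : ℝ) = 2 * n := by
    rw [Fintype.card_coe, Int.card_Ico, show ((n : ℤ) - -(n : ℤ)).toNat = 2 * n by omega]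
    push_cast
    rfl
  obtain ⟨Bl, hBl, b1⟩ : ∃ Bl : Finset (Finset.Ico (-(n : ℤ)) n → S),
      (∀ w : Finset.Ico (-(n : ℤ)) n → S, ((Finset.univ.filter fun i => w i ≠ X ω i).card : ℝ)
        ≤ β * Fintype.card (Finset.Ico (-(n : ℤ)) n) → w ∈ Bl) ∧
      (Bl.card : ℝ) ≤ Real.exp ((h - α) / 2 * Fintype.card (Finset.Ico (-(n : ℤ)) n)) :=
    ⟨_, fun w hw => by simpa only [Finset.mem_filter, Finset.mem_univ, true_and] using hw,
      hβ (Finset.Ico (-(n : ℤ)) n) (X ω)⟩
  have cnt : ∀ x ∈ A \ D, (((Finset.Ico (-(n : ℤ)) n).filter fun j => T j x ∈ Kᶜ).card : ℝ)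
      ≤ β / 2 * (2 * n) := fun x hx => not_lt.1 fun e => hx.2 ⟨n, e⟩
  have sub : (A \ D) ∩ {ω' | ∀ j : ℤ, -(n : ℤ) ≤ j → j < n → T j ω ∈ K → T j ω' ∈ K →
      c (T j ω') = c (T j ω)} ⊆ ⋃ w ∈ Bl, A ∩ {x | X x = w} := by
    rintro x ⟨hx, hx'⟩
    refine mem_iUnion₂.2 ⟨X x, hBl _ ?_, hx.1, rfl⟩
    have a1 : (Finset.univ.filter fun i => X x i ≠ X ω i).card ≤
        (((Finset.Ico (-(n : ℤ)) n).filter fun j => T j ω ∈ Kᶜ) ∪
          (Finset.Ico (-(n : ℤ)) n).filter fun j => T j x ∈ Kᶜ).card := by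
      refine Finset.card_le_card_of_injOn Subtype.val (fun i hi => ?_) Subtype.val_injective.injOn
      have a2 := (Finset.mem_filter.1 (Finset.mem_coe.1 hi)).2
      have a3 := Finset.mem_Ico.1 i.2
      rw [Finset.mem_coe, Finset.mem_union, Finset.mem_filter, Finset.mem_filter]
      by_cases e : T i ω ∈ K
      · exact Or.inr ⟨i.2, fun e' => a2 (hx' i a3.1 a3.2 e e')⟩
      · exact Or.inl ⟨i.2, e⟩
    have a4 : ((Finset.univ.filter fun i => X x i ≠ X ω i).card : ℝ) ≤ _ :=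
      Nat.cast_le.2 (a1.trans (Finset.card_union_le _ _))
    rw [Nat.cast_add] at a4
    rw [hc2]
    linarith [cnt ω hω, cnt x hx]
  have piece : ∀ w ∈ Bl, μ.real (A ∩ {x | X x = w})
      ≤ Real.exp (-((α + h) / 2 * (2 * n))) := fun w _ => by
    rcases (A ∩ {x | X x = w}).eq_empty_or_nonempty with e | ⟨y, hy, hy'⟩
    · rw [e, measureReal_empty]
      exact (Real.exp_pos _).le
    · have a1 : A ∩ {x | X x = w} ⊆ cyl T c (-(n : ℤ)) n y := fun x hx j j1 j2 =>
        congrFun (hx.2.trans hy'.symm : X x = X y) ⟨j, Finset.mem_Ico.2 ⟨j1, j2⟩⟩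
      exact le_trans (measureReal_mono a1) (hy n hn)
  refine (measureReal_mono sub (measure_ne_top _ _)).trans ((measureReal_biUnion_finset_le _ _).trans
    ((Finset.sum_le_card_nsmul _ _ _ piece).trans ?_))
  rw [nsmul_eq_mul]
  refine (mul_le_mul_of_nonneg_right b1 (Real.exp_pos _).le).trans (le_of_eq ?_)
  rw [hc2, ← Real.exp_add]
  congr 1
  ring

end Pool.Agent.Lib.MP_a52643_an.AC
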