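import Pool.Agent.Lib.MP_a52643_an.AC.Defs

/-!
Elementary facts on the masses of names and the basic inequality.
-/


open MeasureTheory Set

noncomputable section

namespace Pool.Agent.Lib.MP_a52643_an.AC

variable {Ω S : Type} [MeasurableSpace Ω] [Fintype S] {μ : Measure Ω} [IsProbabilityMeasure μ]
  {T : ℤ → Ω → Ω} {c : Ω → S}

section abs
variable {A B C : Type} [Fintype A] [Fintype B] [Fintype C] {X : Ω → A}

theorem Key_meas (hX : ∀ x, MeasurableSet {ω | X ω = x}) (f : A → ℝ) :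
    Measurable fun ω => f (X ω) := by
  let _ : MeasurableSpace A := ⊤
  have h : Measurable X := measurable_to_countable' hX
  exact (measurable_from_top (f := f)).comp h

theorem Key_int (hX : ∀ x, MeasurableSet {ω | X ω = x}) (f : A → ℝ) :
    Integrable (fun ω => f (X ω)) μ :=
  Integrable.of_bound (Key_meas hX f).aestronglyMeasurable (∑ x, ‖f x‖)
    (ae_of_all _ fun ω => Finset.single_le_sum (f := fun x => ‖f x‖) (fun _ _ => norm_nonneg _)
      (Finset.mem_univ (X ω)))

theorem Key_integral (hX : ∀ x, MeasurableSet {ω | X ω = x}) (f : A → ℝ) :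
    ∫ ω, f (X ω) ∂μ = ∑ x, μ.real {ω | X ω = x} * f x := by
  let _ : MeasurableSpace A := ⊤
  have h : Measurable X := measurable_to_countable' hX
  rw [← integral_map h.aemeasurable (measurable_from_top (f := f)).aestronglyMeasurable,
    integral_fintype (Integrable.of_finite)]
  refine Finset.sum_congr rfl fun x _ => ?_
  rw [smul_eq_mul, map_measureReal_apply h (measurableSet_singleton x)]
  rfl

theorem Key_pos : ∀ᵐ ω ∂μ, 0 < μ.real {ω' | X ω' = X ω} := by
  have h : ∀ᵐ ω ∂μ, ∀ x, X ω = x → 0 < μ.real {ω' | X ω' = x} := by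
    refine ae_all_iff.2 fun x => ?_
    rcases (measureReal_nonneg (μ := μ) (s := {ω' | X ω' = x})).eq_or_lt with h | h
    · have h0 : μ {ω' | X ω' = x} = 0 := (measureReal_eq_zero_iff (measure_ne_top _ _)).1 h.symm
      filter_upwards [measure_eq_zero_iff_ae_notMem.1 h0] with ω hω e
      exact absurd e hω
    · exact ae_of_all _ fun _ _ => h
  filter_upwards [h] with ω hω
  exact hω _ rfl

theorem Key_marg (hX : ∀ x, MeasurableSet {ω | X ω = x}) (s : Set Ω) :
    ∑ x, μ.real ({ω | X ω = x} ∩ s) = μ.real s := by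
  have h := sum_measureReal_preimage_singleton (μ := μ.restrict s) (f := X) Finset.univ
    (fun y _ => hX y)
  simp only [Finset.coe_univ, preimage_univ, measureReal_restrict_apply_univ] at h
  rw [← h]
  refine Finset.sum_congr rfl fun x _ => ?_
  exact (measureReal_restrict_apply (hX x)).symm

theorem Key_abs {U : Ω → A} {V : Ω → B} {W : Ω → C} (hU : ∀ x, MeasurableSet {ω | U ω = x})
    (hV : ∀ x, MeasurableSet {ω | V ω = x}) (hW : ∀ x, MeasurableSet {ω | W ω = x})
    (Y : Ω → ℝ) (hY : ∀ ω, Y ω = μ.real ({z | U z = U ω} ∩ {z | V z = V ω}) *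
      μ.real ({z | W z = W ω} ∩ {z | V z = V ω}) / (μ.real {z | V z = V ω} *
        μ.real ({z | U z = U ω} ∩ ({z | V z = V ω} ∩ {z | W z = W ω})))) :
    Integrable Y μ ∧ ∫ ω, Y ω ∂μ ≤ 1 := by
  have e : ∀ x : B × A × C, {z | (V z, U z, W z) = x} =
      {z | U z = x.2.1} ∩ ({z | V z = x.1} ∩ {z | W z = x.2.2}) := by
    rintro ⟨v, u, w⟩
    ext z
    simp only [Prod.mk.injEq, mem_ofPred_eq, mem_inter_iff]
    tauto
  have hX : ∀ x : B × A × C, MeasurableSet {z | (V z, U z, W z) = x} := fun x => by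
    rw [e]
    exact (hU _).inter ((hV _).inter (hW _))
  let f : B × A × C → ℝ := fun x => μ.real ({z | U z = x.2.1} ∩ {z | V z = x.1}) *
    μ.real ({z | W z = x.2.2} ∩ {z | V z = x.1}) / (μ.real {z | V z = x.1} *
      μ.real ({z | U z = x.2.1} ∩ ({z | V z = x.1} ∩ {z | W z = x.2.2})))
  have hf : Y = fun ω => f (V ω, U ω, W ω) := funext hY
  rw [hf]
  refine ⟨Key_int hX f, ?_⟩
  rw [Key_integral hX f]
  have h1 : ∀ x : B × A × C, μ.real {z | (V z, U z, W z) = x} * f x ≤
      μ.real ({z | U z = x.2.1} ∩ {z | V z = x.1}) *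
        μ.real ({z | W z = x.2.2} ∩ {z | V z = x.1}) / μ.real {z | V z = x.1} := fun x => by
    rw [e]
    simp only [f]
    generalize μ.real ({z | U z = x.2.1} ∩ ({z | V z = x.1} ∩ {z | W z = x.2.2})) = p
    rcases eq_or_ne p 0 with rfl | hp
    · rw [zero_mul]
      positivity
    · rw [← div_div, mul_div_cancel₀ _ hp]
  refine (Finset.sum_le_sum fun x _ => h1 x).trans ?_
  have h2 := Key_marg (μ := μ) hV univ
  simp only [inter_univ, probReal_univ] at h2
  rw [← h2, Fintype.sum_prod_type]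
  refine Finset.sum_le_sum fun v _ => ?_
  rw [Fintype.sum_prod_type]
  simp only [← Finset.sum_div, ← Finset.mul_sum, ← Finset.sum_mul]
  rw [Key_marg hU, Key_marg hW, mul_self_div_self]

end abs

/-- the name of a point on a window -/
def KeyNm (T : ℤ → Ω → Ω) (c : Ω → S) (a b : ℤ) (ω : Ω) : Finset.Ico a b → S :=
  fun j => c (T j ω)

omit [Fintype S] [MeasurableSpace Ω] in
theorem Key_cyl (a b : ℤ) (ω : Ω) :
    cyl T c a b ω = {z | KeyNm T c a b z = KeyNm T c a b ω} := by
  ext z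
  simp only [cyl, mem_ofPred_eq, funext_iff, KeyNm, Subtype.forall, Finset.mem_Ico, and_imp]

omit [Fintype S] [IsProbabilityMeasure μ] in
theorem Key_fib (hT : Fl μ T) (hc : ∀ s, MeasurableSet {ω | c ω = s}) {I : Type} [Countable I]
    (k : I → ℤ) (w : I → S) : MeasurableSet {ω | (fun i => c (T (k i) ω)) = w} := by
  have e : {ω | (fun i => c (T (k i) ω)) = w} = ⋂ i, T (k i) ⁻¹' {ω | c ω = w i} := by
    ext z
    simp only [mem_ofPred_eq, funext_iff, mem_iInter, mem_preimage]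
  rw [e]
  exact MeasurableSet.iInter fun i => (hT.mp _).measurable (hc _)

omit [Fintype S] [IsProbabilityMeasure μ] in
theorem Key_nm (hT : Fl μ T) (hc : ∀ s, MeasurableSet {ω | c ω = s}) (a b : ℤ)
    (w : Finset.Ico a b → S) : MeasurableSet {ω | KeyNm T c a b ω = w} :=
  Key_fib hT hc (fun j : Finset.Ico a b => (j : ℤ)) w

omit [Fintype S] [MeasurableSpace Ω] in
theorem Key_split {a m b : ℤ} (h1 : a ≤ m) (h2 : m ≤ b) (ω : Ω) :
    cyl T c a b ω = cyl T c a m ω ∩ cyl T c m b ω := by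
  ext z
  simp only [cyl, mem_ofPred_eq, mem_inter_iff]
  refine ⟨fun h => ⟨fun j u v => h j u (by omega), fun j u v => h j (by omega) v⟩,
    fun h j u v => ?_⟩
  rcases lt_or_ge j m with e | e
  · exact h.1 j u e
  · exact h.2 j e v

theorem Fl.meas_cyl (hT : Fl μ T) (hc : ∀ s, MeasurableSet {ω | c ω = s}) (a b : ℤ) (ω : Ω) :
    MeasurableSet (cyl T c a b ω) := by
  rw [Key_cyl]
  exact Key_nm hT hc a b _

theorem Fl.meas_P (hT : Fl μ T) (hc : ∀ s, MeasurableSet {ω | c ω = s}) (a b : ℤ) :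
    Measurable (P μ T c a b) := by
  have h := Key_meas (Key_nm hT hc a b) fun w => μ.real {z | KeyNm T c a b z = w}
  convert h using 2 with ω
  rw [P, Key_cyl]

theorem Fl.P_pos (hT : Fl μ T) (hc : ∀ s, MeasurableSet {ω | c ω = s}) (a b : ℤ) :
    ∀ᵐ ω ∂μ, 0 < P μ T c a b ω := by
  filter_upwards [Key_pos (μ := μ) (X := KeyNm T c a b)] with ω hω
  rwa [P, Key_cyl]

theorem Fl.P_shift (hT : Fl μ T) (hc : ∀ s, MeasurableSet {ω | c ω = s}) (a b k : ℤ) (ω : Ω) :
    P μ T c (a + k) (b + k) ω = P μ T c a b (T k ω) := by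
  have e : cyl T c (a + k) (b + k) ω = T k ⁻¹' cyl T c a b (T k ω) := by
    ext z
    simp only [cyl, mem_ofPred_eq, mem_preimage, ← hT.add]
    refine ⟨fun h j u v => h _ (by omega) (by omega), fun h j u v => ?_⟩
    have := h (j - k) (by omega) (by omega)
    rwa [sub_add_cancel] at this
  rw [P, P, e, (hT.mp k).measureReal_preimage (hT.meas_cyl hc a b _).nullMeasurableSet]

omit [Fintype S] in
theorem P_anti {a a' b b' : ℤ} (ha : a' ≤ a) (hb : b ≤ b') (ω : Ω) :
    P μ T c a' b' ω ≤ P μ T c a b ω :=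
  measureReal_mono fun _ hz j u v => hz j (ha.trans u) (v.trans_le hb)

omit [Fintype S] in
theorem P_self (a : ℤ) (ω : Ω) : P μ T c a a ω = 1 := by
  have e : cyl T c a a ω = univ := eq_univ_of_forall fun _ j u v => absurd u (not_le.2 v)
  rw [P, e, probReal_univ]

theorem Fl.int_J (hT : Fl μ T) (hc : ∀ s, MeasurableSet {ω | c ω = s}) (a b : ℤ) :
    Integrable (J μ T c a b) μ := by
  have h := Key_int (μ := μ) (Key_nm hT hc a b)
    fun w => -Real.log (μ.real {z | KeyNm T c a b z = w})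
  convert h using 2 with ω
  rw [J, P, Key_cyl]

open Classical in
theorem Fl.mass_J (hT : Fl μ T) (hc : ∀ s, MeasurableSet {ω | c ω = s}) (n : ℕ) (x : ℝ) :
    μ.real {ω | J μ T c 0 n ω ≤ x} = ∑ w : Fin n → S,
      if -Real.log (μ.real {ω | ∀ i : Fin n, c (T (i : ℕ) ω) = w i}) ≤ x then
        μ.real {ω | ∀ i : Fin n, c (T (i : ℕ) ω) = w i} else 0 := by
  have hX := Key_fib hT hc fun i : Fin n => ((i : ℕ) : ℤ)
  rw [← Key_marg hX]
  refine Finset.sum_congr rfl fun w _ => ?_
  have e : {ω | (fun i : Fin n => c (T (i : ℕ) ω)) = w} =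
      {ω | ∀ i : Fin n, c (T (i : ℕ) ω) = w i} := by
    ext z
    simp only [mem_ofPred_eq, funext_iff]
  have hJ : ∀ z ∈ {ω | ∀ i : Fin n, c (T (i : ℕ) ω) = w i}, J μ T c 0 n z =
      -Real.log (μ.real {ω | ∀ i : Fin n, c (T (i : ℕ) ω) = w i}) := fun z hz => by
    have e2 : cyl T c 0 n z = {ω | ∀ i : Fin n, c (T (i : ℕ) ω) = w i} := by
      ext y
      refine ⟨fun h i => (h _ (Int.natCast_nonneg _) (by exact_mod_cast i.isLt)).trans (hz i),
        fun h j u v => ?_⟩
      obtain ⟨m, rfl⟩ := Int.eq_ofNat_of_zero_le u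
      have hm : m < n := by exact_mod_cast v
      exact (h ⟨m, hm⟩).trans (hz ⟨m, hm⟩).symm
    rw [J, P, e2]
  rw [e]
  split_ifs with h
  · exact congrArg _ (inter_eq_left.2 fun z hz => (hJ z hz).trans_le h)
  · refine (congrArg _ (eq_empty_of_forall_notMem fun z hz => ?_)).trans measureReal_empty
    exact h ((hJ z hz.1).ge.trans hz.2)

theorem Fl.key (hT : Fl μ T) (hc : ∀ s, MeasurableSet {ω | c ω = s}) {a a' b b' : ℤ}
    (h1 : a ≤ a') (h2 : a' ≤ b) (h3 : b ≤ b') :
    Integrable (fun ω => P μ T c a b ω * P μ T c a' b' ω /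
      (P μ T c a' b ω * P μ T c a b' ω)) μ ∧
    ∫ ω, P μ T c a b ω * P μ T c a' b' ω / (P μ T c a' b ω * P μ T c a b' ω) ∂μ ≤ 1 := by
  classical
  refine Key_abs (Key_nm hT hc a a') (Key_nm hT hc a' b) (Key_nm hT hc b b') _ fun ω => ?_
  simp only [← Key_cyl, P]
  rw [Key_split h1 h2, Key_split h1 (h2.trans h3), Key_split h2 h3,
    inter_comm (cyl T c b b' ω)]

end Pool.Agent.Lib.MP_a52643_an.AC
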