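import Pool.Agent.Lib.MP_a52643_an.AC.Mem

/-!
One function which controls the information of one sided and two sided names.
-/

open MeasureTheory Set Filter

noncomputable section

namespace Pool.Agent.Lib.MP_a52643_an.AC

variable {Ω S : Type} [MeasurableSpace Ω] [Fintype S] {μ : Measure Ω} [IsProbabilityMeasure μ]
  {T : ℤ → Ω → Ω} {c : Ω → S}

private theorem low_bc {f : ℕ → Ω → ℝ} (hi : ∀ n, Integrable (f n) μ) (h0 : ∀ n ω, 0 ≤ f n ω)
    {u : ℕ → ℝ} (hs : Summable u) (hb : ∀ n, ∫ ω, f n ω ∂μ ≤ u n) :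
    ∀ᵐ ω ∂μ, ∀ᶠ n : ℕ in atTop, f n ω < 1 := by
  have h := ae_eventually_notMem (μ := μ) (s := fun n => {ω | 1 ≤ f n ω}) (by
    refine ne_top_of_le_ne_top hs.tsum_ofReal_ne_top (ENNReal.tsum_le_tsum fun n => ?_)
    have h1 := mul_meas_ge_le_integral_of_nonneg (ae_of_all μ (h0 n)) (hi n) 1
    rw [one_mul] at h1
    rw [← ofReal_measureReal (measure_ne_top μ _)]
    exact ENNReal.ofReal_le_ofReal (h1.trans (hb n)))
  filter_upwards [h] with ω hω
  filter_upwards [hω] with n hn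
  exact not_le.1 hn

omit [IsProbabilityMeasure μ] in
private theorem low_comp (hT : Fl μ T) {f : Ω → ℝ} (mf : Measurable f) (j : ℤ) :
    ∫ ω, f (T j ω) ∂μ = ∫ ω, f ω ∂μ := by
  rw [← integral_map (hT.mp j).measurable.aemeasurable mf.aestronglyMeasurable, (hT.mp j).map_eq]

omit [IsProbabilityMeasure μ] in
private theorem low_sum (hT : Fl μ T) {ι : Type} (s : Finset ι) (t : ι → ℤ) {f : ι → Ω → ℝ}
    (mf : ∀ i, Measurable (f i)) (hf : ∀ i, Integrable (f i) μ) :
    Integrable (fun ω => ∑ i ∈ s, f i (T (t i) ω)) μ ∧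
      ∫ ω, ∑ i ∈ s, f i (T (t i) ω) ∂μ = ∑ i ∈ s, ∫ ω, f i ω ∂μ := by
  have h : ∀ i ∈ s, Integrable (fun ω => f i (T (t i) ω)) μ := fun i _ =>
    (hT.mp (t i)).integrable_comp_of_integrable (hf i)
  refine ⟨integrable_finsetSum s h, ?_⟩
  rw [integral_finsetSum s h]
  exact Finset.sum_congr rfl fun i _ => low_comp hT (mf i) _

omit [IsProbabilityMeasure μ] in
private theorem low_inf {g : ℕ → Ω → ℝ} (mg : ∀ i, Measurable (g i))
    (ig : ∀ i, Integrable (g i) μ) {u : ℕ → ℝ} (u0 : ∀ i, 0 ≤ u i) (hs : Summable u)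
    (hb : ∀ i, ∫ ω, |g i ω - g (i + 1) ω| ∂μ ≤ u i) :
    ∃ D : Ω → ℝ, Measurable D ∧ Integrable D μ ∧ (∀ ω, 0 ≤ D ω) ∧ ∫ ω, D ω ∂μ ≤ ∑' i, u i ∧
      ∀ᵐ ω ∂μ, ∀ i, g 0 ω - D ω ≤ g i ω := by
  let E : Ω → ENNReal := fun ω => ∑' i, ENNReal.ofReal |g i ω - g (i + 1) ω|
  have m1 : ∀ i, Measurable fun ω => ENNReal.ofReal |g i ω - g (i + 1) ω| := fun i =>
    ENNReal.measurable_ofReal.comp (continuous_abs.measurable.comp ((mg i).sub (mg (i + 1))))
  have mE : Measurable E := Measurable.tsum m1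
  have h1 : ∫⁻ ω, E ω ∂μ ≤ ENNReal.ofReal (∑' i, u i) := by
    rw [ENNReal.ofReal_tsum_of_nonneg u0 hs, lintegral_tsum fun i => (m1 i).aemeasurable]
    refine ENNReal.tsum_le_tsum fun i => ?_
    have i1 : Integrable (fun ω => |g i ω - g (i + 1) ω|) μ := ((ig i).sub (ig (i + 1))).abs
    rw [← ofReal_integral_eq_lintegral_ofReal i1 (ae_of_all μ fun ω => abs_nonneg _)]
    exact ENNReal.ofReal_le_ofReal (hb i)
  have h2 : ∫⁻ ω, E ω ∂μ ≠ ⊤ := ne_top_of_le_ne_top ENNReal.ofReal_ne_top h1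
  have h3 := ae_lt_top mE h2
  refine ⟨fun ω => (E ω).toReal, mE.ennreal_toReal,
    integrable_toReal_of_lintegral_ne_top mE.aemeasurable h2, fun ω => ENNReal.toReal_nonneg,
    ?_, ?_⟩
  · rw [integral_toReal mE.aemeasurable h3]
    exact ENNReal.toReal_le_of_le_ofReal (tsum_nonneg u0) h1
  · filter_upwards [h3] with ω hω i
    have h4 : ∑ l ∈ Finset.range i, |g l ω - g (l + 1) ω| ≤ (E ω).toReal := by
      rw [← ENNReal.ofReal_le_iff_le_toReal hω.ne,
        ENNReal.ofReal_sum_of_nonneg fun l _ => abs_nonneg _]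
      exact ENNReal.sum_le_tsum _
    have h5 : ∑ l ∈ Finset.range i, (g l ω - g (l + 1) ω) = g 0 ω - g i ω :=
      Finset.sum_range_sub' (fun l => g l ω) i
    have h6 : ∑ l ∈ Finset.range i, (g l ω - g (l + 1) ω) ≤
        ∑ l ∈ Finset.range i, |g l ω - g (l + 1) ω| := Finset.sum_le_sum fun l _ => le_abs_self _
    linarith

theorem Fl.lower (hT : Fl μ T) (hc : ∀ s, MeasurableSet {ω | c ω = s}) {β : ℝ} (β0 : 0 < β) :
    ∃ G : Ω → ℝ, Measurable G ∧ Integrable G μ ∧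
      (∀ᶠ n : ℕ in atTop,
        ∫ ω, |J μ T c 0 n ω - ∑ j ∈ Finset.range n, G (T j ω)| ∂μ ≤ β * n) ∧
      ∀ᵐ ω ∂μ, ∀ᶠ n : ℕ in atTop,
        ∑ j ∈ Finset.Ico (-(n : ℤ)) n, G (T j ω) - 1 - β * n ≤ J μ T c (-(n : ℤ)) n ω := by
  let u : ℕ → ℝ := fun i => β / 8 * (1 / 2) ^ i
  have u0 : ∀ i, 0 < u i := fun i => by positivity
  have su : HasSum u (β / 8 * 2) := hasSum_geometric_two.mul_left _
  choose k' hk' using fun i => hT.Gm_cauchy hc (u0 i)
  let k : ℕ → ℕ := fun i => ∑ l ∈ Finset.range (i + 1), k' l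
  have k1 : ∀ i, k' i ≤ k i := fun i =>
    Finset.single_le_sum (f := k') (fun _ _ => Nat.zero_le _) (Finset.self_mem_range_succ i)
  have k2 : ∀ i, k i ≤ k (i + 1) := fun i => by
    simp only [k, Finset.sum_range_succ _ (i + 1)]
    omega
  have hk : ∀ i m, k i ≤ m → ∫ ω, |Gm μ T c (k i) ω - Gm μ T c m ω| ∂μ ≤ u i := fun i m hm =>
    hk' i _ _ (k1 i) hm
  have mG := hT.meas_Gm hc
  have iG := hT.int_Gm hc
  obtain ⟨D, mD, iD, D0, hD, hle⟩ := low_inf (g := fun i => Gm μ T c (k i)) (fun i => mG _)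
    (fun i => iG _) (fun i => (u0 i).le) su.summable fun i => hk i _ (k2 i)
  rw [su.tsum_eq] at hD
  have mF : Measurable fun ω => Gm μ T c (k 0) ω - D ω := (mG _).sub mD
  have iF : Integrable (fun ω => Gm μ T c (k 0) ω - D ω) μ := (iG _).sub iD
  refine ⟨_, mF, iF, ?_, ?_⟩
  · let f : ℕ → Ω → ℝ := fun j ω => |Gm μ T c j ω - (Gm μ T c (k 0) ω - D ω)|
    have mf : ∀ j, Measurable (f j) := fun j => continuous_abs.measurable.comp ((mG j).sub mF)
    have jf : ∀ j, Integrable (f j) μ := fun j => ((iG j).sub iF).abs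
    have f0 : ∀ j, 0 ≤ ∫ ω, f j ω ∂μ := fun j => integral_nonneg fun ω => abs_nonneg _
    have f1 : ∀ j, k 0 ≤ j → ∫ ω, f j ω ∂μ ≤ β / 2 := fun j hj => by
      have i1 : Integrable (fun ω => |Gm μ T c (k 0) ω - Gm μ T c j ω|) μ :=
        ((iG _).sub (iG _)).abs
      have h1 : ∫ ω, f j ω ∂μ ≤ ∫ ω, (|Gm μ T c (k 0) ω - Gm μ T c j ω| + D ω) ∂μ :=
        integral_mono (jf j) (i1.add iD) fun ω => by
          have a1 := le_abs_self (Gm μ T c (k 0) ω - Gm μ T c j ω)
          have a2 := neg_abs_le (Gm μ T c (k 0) ω - Gm μ T c j ω)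
          have a3 := D0 ω
          exact abs_le.2 ⟨by linarith, by linarith⟩
      rw [integral_add i1 iD] at h1
      have h2 := hk 0 j hj
      simp only [u, pow_zero, mul_one] at h2
      linarith
    have f2 : ∀ n, ∑ j ∈ Finset.range n, ∫ ω, f j ω ∂μ ≤
        ∑ j ∈ Finset.range (k 0), ∫ ω, f j ω ∂μ + β / 2 * n := fun n => by
      induction n with
      | zero => simpa using Finset.sum_nonneg fun j _ => f0 j
      | succ n ih =>
        rcases le_or_gt (k 0) n with h | h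
        · rw [Finset.sum_range_succ]
          have := f1 n h
          push_cast
          linarith
        · have := Finset.sum_le_sum_of_subset_of_nonneg (Finset.range_mono (Nat.succ_le_of_lt h))
            fun j _ _ => f0 j
          have h2 : 0 ≤ β / 2 * ((n + 1 : ℕ) : ℝ) := by positivity
          exact this.trans (by linarith)
    have ev := (tendsto_natCast_atTop_atTop (R := ℝ)).const_mul_atTop (half_pos β0)
    filter_upwards [ev.eventually_ge_atTop (∑ j ∈ Finset.range (k 0), ∫ ω, f j ω ∂μ)] with n hn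
    obtain ⟨s1, s2⟩ := low_sum hT (Finset.range n) (fun j : ℕ => (j : ℤ)) mf jf
    have h1 := integral_mono_of_nonneg (μ := μ) (f := fun ω => |J μ T c 0 n ω -
        ∑ j ∈ Finset.range n, (Gm μ T c (k 0) (T j ω) - D (T j ω))|)
      (ae_of_all μ fun ω => abs_nonneg _) s1 (ae_of_all μ fun ω => by
        beta_reduce
        rw [← hT.Gm_sum' hc n ω, ← Finset.sum_sub_distrib]
        exact Finset.abs_sum_le_sum_abs _ _)
    have h2 := f2 n
    rw [s2] at h1
    linarith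
  · let f : ℕ → ℤ → Ω → ℝ := fun n j ω =>
      |Gm μ T c (k n) ω - Gm μ T c (j + n + k n).toNat ω|
    have mf : ∀ n j, Measurable (f n j) := fun n j =>
      continuous_abs.measurable.comp ((mG _).sub (mG _))
    have jf : ∀ n j, Integrable (f n j) μ := fun n j => ((iG _).sub (iG _)).abs
    have s := fun n : ℕ => low_sum hT (Finset.Ico (-(n : ℤ)) n) (fun j => j) (mf n) (jf n)
    have sv0 : Summable fun n : ℕ => (n : ℝ) ^ 1 * (1 / 2 : ℝ) ^ n :=
      summable_pow_mul_geometric_of_norm_lt_one 1 (r := (1 / 2 : ℝ))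
        (by norm_num [Real.norm_eq_abs])
    have sv := sv0.mul_left (β / 4)
    have b1 := low_bc (f := fun (n : ℕ) ω => ∑ j ∈ Finset.Ico (-(n : ℤ)) n, f n j (T j ω))
      (fun n => (s n).1)
      (fun n ω => Finset.sum_nonneg fun j _ => abs_nonneg _) sv fun n => by
        rw [(s n).2]
        refine (Finset.sum_le_card_nsmul _ _ (u n) fun j hj => hk n _ ?_).trans (le_of_eq ?_)
        · have := (Finset.mem_Ico.1 hj).1
          omega
        · have e : ((n : ℤ) - -(n : ℤ)).toNat = 2 * n := by omega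
          rw [Int.card_Ico, e, nsmul_eq_mul]
          simp only [u]
          push_cast
          ring
    have ky := fun n : ℕ => hT.key hc (a := -(n : ℤ) - k n) (a' := -(n : ℤ)) (b := -(n : ℤ))
      (b' := n) (by omega) le_rfl (by omega)
    have P0 : ∀ a b ω, 0 ≤ P μ T c a b ω := fun a b ω => measureReal_nonneg
    have sw : Summable fun n : ℕ => Real.exp (-β) ^ n :=
      summable_geometric_of_lt_one (Real.exp_pos _).le (Real.exp_lt_one_iff.2 (by linarith))
    have b2 := low_bc (f := fun (n : ℕ) ω => Real.exp (-β) ^ n *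
        (P μ T c (-(n : ℤ) - k n) (-(n : ℤ)) ω * P μ T c (-(n : ℤ)) n ω /
          (P μ T c (-(n : ℤ)) (-(n : ℤ)) ω * P μ T c (-(n : ℤ) - k n) n ω)))
      (fun n => (ky n).1.const_mul (Real.exp (-β) ^ n))
      (fun n ω => mul_nonneg (by positivity)
        (div_nonneg (mul_nonneg (P0 _ _ _) (P0 _ _ _)) (mul_nonneg (P0 _ _ _) (P0 _ _ _)))) sw
      fun n => by
        rw [integral_const_mul]
        exact mul_le_of_le_one_right (by positivity) (ky n).2
    have b3 : ∀ᵐ ω ∂μ, ∀ j : ℤ, ∀ i, Gm μ T c (k 0) (T j ω) - D (T j ω) ≤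
        Gm μ T c (k i) (T j ω) :=
      ae_all_iff.2 fun j => (hT.mp j).quasiMeasurePreserving.ae hle
    have b4 : ∀ᵐ ω ∂μ, ∀ a b : ℤ, 0 < P μ T c a b ω :=
      ae_all_iff.2 fun a => ae_all_iff.2 fun b => hT.P_pos hc a b
    filter_upwards [b1, b2, b3, b4] with ω c1 c2 c3 c4
    filter_upwards [c1, c2] with n d1 d2
    have e1 := hT.Gm_sum hc n (k n) ω
    have e2 : ∑ j ∈ Finset.Ico (-(n : ℤ)) n, (Gm μ T c (k 0) (T j ω) - D (T j ω)) ≤
        ∑ j ∈ Finset.Ico (-(n : ℤ)) n, (Gm μ T c (j + n + k n).toNat (T j ω) + f n j (T j ω)) :=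
      Finset.sum_le_sum fun j _ => by
        have a1 := c3 j n
        have a2 : Gm μ T c (k n) (T j ω) - Gm μ T c (j + n + k n).toNat (T j ω) ≤ f n j (T j ω) :=
          le_abs_self _
        linarith
    rw [Finset.sum_add_distrib, e1] at e2
    rw [P_self, one_mul] at d2
    have e3 := Real.log_neg (mul_pos (by positivity)
      (div_pos (mul_pos (c4 _ _) (c4 _ _)) (c4 _ _))) d2
    rw [Real.log_mul (by positivity) (div_pos (mul_pos (c4 _ _) (c4 _ _)) (c4 _ _)).ne',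
      Real.log_div (mul_pos (c4 _ _) (c4 _ _)).ne' (c4 _ _).ne',
      Real.log_mul (c4 _ _).ne' (c4 _ _).ne', Real.log_pow, Real.log_exp] at e3
    simp only [J] at e2 ⊢
    linarith

end Pool.Agent.Lib.MP_a52643_an.AC
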