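import Pool.Agent.Lib.MP_a52643_an.SE.Sym1

/-!
An invariant colouring is locally constant on an invariant set of almost full measure.
-/

open MeasureTheory Set Filter Topology Metric UpperHalfPlane
open scoped MatrixGroups

noncomputable section

namespace Pool.Agent.Lib.MP_a52643_an.AC

open SE NS

variable {Γ : Type} [Group Γ] [MulAction Γ ℍ] {e : ℝ}

theorem lam_one : (1 : SL2) ∈ Lam Γ := by
  exact ⟨1, fun z => by rw [one_smul, one_smul]⟩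

theorem lam_mul {g h : SL2} (hg : g ∈ Lam Γ) (hh : h ∈ Lam Γ) : g * h ∈ Lam Γ := by
  obtain ⟨γ, hγ⟩ := hg
  obtain ⟨δ, hδ⟩ := hh
  exact ⟨γ * δ, fun z => by rw [mul_smul, mul_smul, hδ, hγ]⟩

theorem lam_inv {g : SL2} (hg : g ∈ Lam Γ) : g⁻¹ ∈ Lam Γ := by
  obtain ⟨γ, hγ⟩ := hg
  exact ⟨γ⁻¹, fun z => by rw [inv_smul_eq_iff, hγ, smul_inv_smul]⟩

theorem lam_closed (H : Act Γ e) (e0 : 0 < e) : IsClosed (Lam Γ) := by
  refine isClosed_of_closure_subset fun g hg => ?_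
  have cs : ∀ z : ℍ, Continuous fun h : SL2 => h • z := fun z =>
    continuous_id.smul continuous_const
  have oU : IsOpen {h : SL2 | dist (h • (I : ℍ)) (g • (I : ℍ)) < e / 2} :=
    isOpen_lt ((cs I).dist continuous_const) continuous_const
  have h1 := oU.inter_closure (t := Lam Γ) ⟨by simpa using e0, hg⟩
  obtain ⟨h₀, hU, γ₀, h₀'⟩ := closure_nonempty_iff.1 ⟨g, h1⟩
  have cC : IsClosed {h : SL2 | ∀ z : ℍ, γ₀ • z = h • z} := by
    rw [ofPred_forall]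
    exact isClosed_iInter fun z => isClosed_eq continuous_const (cs z)
  refine ⟨γ₀, cC.closure_subset_iff.2 ?_ h1⟩
  rintro h ⟨hU', γ, hγ⟩
  have k : γ₀⁻¹ * γ = 1 := by
    refine H.inj _ I ?_
    rw [← H.iso γ₀, mul_smul, smul_inv_smul, hγ, h₀']
    have := dist_triangle_right (h • (I : ℍ)) (h₀ • (I : ℍ)) (g • (I : ℍ))
    simp only [mem_ofPred_eq] at hU hU'
    linarith
  rw [inv_mul_eq_one] at k
  rw [k]
  exact hγ

theorem orbit_closed (H : Act Γ e) (e0 : 0 < e) {F : Set ℍ} (hF : IsCompact F) :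
    IsClosed {z : ℍ | ∃ γ : Γ, γ • z ∈ F} := by
  refine isClosed_of_closure_subset fun z hz => ?_
  obtain ⟨R, hR⟩ := hF.isBounded.subset_closedBall I
  obtain ⟨N, hN⟩ := H.orb (R + e)
  obtain ⟨S, -, hS⟩ := hN z I
  have h1 := (isOpen_ball (x := z) (ε := e)).inter_closure ⟨mem_ball_self e0, hz⟩
  have cC : IsClosed (⋃ γ ∈ S, {w : ℍ | γ • w ∈ F}) :=
    isClosed_biUnion_finset fun γ _ =>
      hF.isClosed.preimage (Isometry.of_dist_eq (H.iso γ)).continuous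
  have h2 : z ∈ ⋃ γ ∈ S, {w : ℍ | γ • w ∈ F} := by
    refine cC.closure_subset_iff.2 ?_ h1
    rintro w ⟨hw, γ, hγ⟩
    refine mem_iUnion₂.2 ⟨γ, hS γ ?_, hγ⟩
    have a1 := dist_triangle (γ • z) (γ • w) I
    have a2 := mem_closedBall.1 (hR hγ)
    rw [H.iso, dist_comm z w] at a1
    linarith [mem_ball.1 hw]
  obtain ⟨γ, -, hγ⟩ := mem_iUnion₂.1 h2
  exact ⟨γ, hγ⟩

private lemma lus_ind : IsInducing (fun g : SL2 => (ea g, eb g, ec g, ed g)) := by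
  have hv : IsInducing (fun g : SL2 => (g : Matrix (Fin 2) (Fin 2) ℝ)) := IsInducing.subtypeVal
  have he : ∀ i j, Continuous fun g : SL2 => (g : Matrix (Fin 2) (Fin 2) ℝ) i j := fun i j =>
    hv.continuous.matrix_elem i j
  refine IsInducing.of_comp (g := fun p : ℝ × ℝ × ℝ × ℝ =>
    (!![p.1, p.2.1; p.2.2.1, p.2.2.2] : Matrix (Fin 2) (Fin 2) ℝ))
    ((he 0 0).prodMk ((he 0 1).prodMk ((he 1 0).prodMk (he 1 1)))) ?_ ?_
  · refine continuous_matrix fun i j => ?_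
    fin_cases i <;> fin_cases j <;> simp <;> fun_prop
  · convert hv using 1
    funext g
    ext i j
    fin_cases i <;> fin_cases j <;> rfl

private lemma lus_dist {u : SL2} {ε : ℝ} :
    dist (ea u, eb u, ec u, ed u) ((1, 0, 0, 1) : ℝ × ℝ × ℝ × ℝ) ≤ ε ↔
      |ea u - 1| ≤ ε ∧ |eb u| ≤ ε ∧ |ec u| ≤ ε ∧ |ed u - 1| ≤ ε := by
  simp only [Prod.dist_eq, max_le_iff, Real.dist_eq, sub_zero]

private lemma lus_nhds {V : Set SL2} : V ∈ 𝓝 (1 : SL2) ↔ ∃ ε > 0, ∀ u : SL2,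
    |ea u - 1| ≤ ε ∧ |eb u| ≤ ε ∧ |ec u| ≤ ε ∧ |ed u - 1| ≤ ε → u ∈ V := by
  rw [lus_ind.nhds_eq_comap, (nhds_basis_closedBall.comap _).mem_iff]
  refine exists_congr fun ε => and_congr Iff.rfl (forall_congr' fun u => ?_)
  rw [← lus_dist]
  rfl

private lemma lus_sc : SecondCountableTopology SL2 := lus_ind.secondCountableTopology

open scoped Pointwise in
theorem lusin (H : Act Γ e) (e0 : 0 < e) (μ : Measure SL2) [IsProbabilityMeasure μ] {N : ℕ}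
    {c : SL2 → Fin N} (mc : Measurable c) (ic : ∀ γ ∈ Lam Γ, ∀ g, c (γ * g) = c g) {κ : ℝ}
    (κ0 : 0 < κ) : ∃ (K : Set SL2) (ε : ℝ), MeasurableSet K ∧
      (∀ γ ∈ Lam Γ, ∀ g, γ * g ∈ K ↔ g ∈ K) ∧ μ.real Kᶜ ≤ κ ∧ 0 < ε ∧ ε ≤ 1 / 10 ∧
      ∀ g u : SL2, |ea u - 1| ≤ ε → |eb u| ≤ ε → |ec u| ≤ ε → |ed u - 1| ≤ ε →
        g ∈ K → g * u ∈ K → c (g * u) = c g := by
  have := borel_SL2
  have := lus_sc
  have : LocallyCompactSpace (Matrix (Fin 2) (Fin 2) ℝ) :=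
    inferInstanceAs (LocallyCompactSpace (Fin 2 → Fin 2 → ℝ))
  have : LocallyCompactSpace SL2 :=
    Matrix.SpecialLinearGroup.isClosedEmbedding_val.locallyCompactSpace
  have : TopologicalSpace.PseudoMetrizableSpace SL2 := lus_ind.pseudoMetrizableSpace
  have ex : ∀ s : Fin N, ∃ C ⊆ c ⁻¹' {s}, IsCompact C ∧
      μ (c ⁻¹' {s} \ C) < ENNReal.ofReal (κ / (N + 1)) := fun s =>
    (mc (measurableSet_singleton s)).exists_isCompact_sdiff_lt (measure_ne_top _ _)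
      (ENNReal.ofReal_pos.2 (by positivity)).ne'
  choose C hC cC mC using ex
  have cl : ∀ s, IsClosed (Lam Γ * C s) := fun s =>
    (lam_closed H e0).mul_right_of_isCompact (cC s)
  have inv : ∀ s, ∀ γ ∈ Lam Γ, ∀ g, g ∈ Lam Γ * C s → γ * g ∈ Lam Γ * C s := by
    rintro s γ hγ _ ⟨δ, hδ, x, hx, rfl⟩
    exact ⟨γ * δ, lam_mul hγ hδ, x, hx, mul_assoc _ _ _⟩
  have col : ∀ s, ∀ g ∈ Lam Γ * C s, c g = s := by
    rintro s _ ⟨δ, hδ, x, hx, rfl⟩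
    exact (ic δ hδ x).trans (hC s hx)
  have sep : ∀ s s' : Fin N, ∃ V ∈ 𝓝 (1 : SL2), s ≠ s' → C s * V ⊆ (Lam Γ * C s')ᶜ := by
    intro s s'
    by_cases h : s = s'
    · exact ⟨univ, univ_mem, fun h' => absurd h h'⟩
    · obtain ⟨V, hV, hV'⟩ := compact_open_separated_mul_right (cC s) (cl s').isOpen_compl
        fun x hx hx' => h ((hC s hx).symm.trans (col s' x hx'))
      exact ⟨V, hV, fun _ => hV'⟩
  choose V hV hV' using sep
  obtain ⟨ε, ε0, hε⟩ := lus_nhds.1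
    (iInter_mem.2 fun s => iInter_mem.2 fun s' => hV s s' : (⋂ s, ⋂ s', V s s') ∈ 𝓝 (1 : SL2))
  refine ⟨⋃ s, Lam Γ * C s, min ε (1 / 10), MeasurableSet.iUnion fun s => (cl s).measurableSet,
    fun γ hγ g => ?_, ?_, by positivity, min_le_right _ _, fun g u h1 h2 h3 h4 hg hu => ?_⟩
  · simp only [mem_iUnion]
    refine exists_congr fun s => ⟨fun h => ?_, inv s γ hγ g⟩
    simpa using inv s γ⁻¹ (lam_inv hγ) _ h
  · have a1 : (⋃ s, Lam Γ * C s)ᶜ ⊆ ⋃ s, c ⁻¹' {s} \ C s := fun g hg =>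
      mem_iUnion.2 ⟨c g, rfl, fun h => hg (mem_iUnion.2 ⟨c g, 1, lam_one, g, h, one_mul g⟩)⟩
    refine (measureReal_mono a1 (measure_ne_top _ _)).trans
      ((measureReal_iUnion_fintype_le _).trans ?_)
    have a2 : ∀ s, μ.real (c ⁻¹' {s} \ C s) ≤ κ / (N + 1) := fun s =>
      ENNReal.toReal_le_of_le_ofReal (by positivity) (mC s).le
    refine (Finset.sum_le_sum fun s _ => a2 s).trans ?_
    rw [Finset.sum_const, Finset.card_univ, Fintype.card_fin, nsmul_eq_mul, ← mul_div_assoc,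
      div_le_iff₀ (by positivity)]
    nlinarith
  · obtain ⟨s, δ, hδ, x, hx, rfl⟩ := mem_iUnion.1 hg
    obtain ⟨s', hs'⟩ := mem_iUnion.1 hu
    have m := min_le_left ε (1 / 10)
    have a1 := mem_iInter.1 (mem_iInter.1
      (hε u ⟨h1.trans m, h2.trans m, h3.trans m, h4.trans m⟩) s) s'
    have a2 : x * u ∈ Lam Γ * C s' := by
      simpa [mul_assoc] using inv s' δ⁻¹ (lam_inv hδ) _ hs'
    rw [col s' _ hs', col s _ ⟨δ, hδ, x, hx, rfl⟩]
    by_contra h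
    exact hV' s s' (Ne.symm h) ⟨x, hx, u, a1, rfl⟩ a2

theorem small_box {ε : ℝ} (ε0 : 0 < ε) :
    ∃ W : ℕ → Set SL2, (∀ i, MeasurableSet (W i)) ∧ (∀ g, ∃ i, g ∈ W i) ∧
      ∀ i, ∀ g ∈ W i, ∀ g' ∈ W i, |ea (g⁻¹ * g') - 1| ≤ ε ∧ |eb (g⁻¹ * g')| ≤ ε ∧
        |ec (g⁻¹ * g')| ≤ ε ∧ |ed (g⁻¹ * g') - 1| ≤ ε := by
  have := borel_SL2
  have := lus_sc
  have h1 : {u : SL2 | |ea u - 1| ≤ ε ∧ |eb u| ≤ ε ∧ |ec u| ≤ ε ∧ |ed u - 1| ≤ ε} ∈
      𝓝 ((1 : SL2)⁻¹ * 1) := by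
    rw [inv_one, one_mul]
    exact lus_nhds.2 ⟨ε, ε0, fun u h => h⟩
  have h2 : Continuous fun p : SL2 × SL2 => p.1⁻¹ * p.2 := by fun_prop
  obtain ⟨A, B, oA, hA, oB, hB, hAB⟩ := mem_nhds_prod_iff'.1 (h2.continuousAt (x := (1, 1)) h1)
  obtain ⟨d, hd⟩ := TopologicalSpace.exists_dense_seq SL2
  refine ⟨fun i => {g | (d i)⁻¹ * g ∈ A ∩ B}, fun i => ?_, fun g => ?_, fun i g hg g' hg' => ?_⟩
  · exact ((oA.inter oB).preimage (by fun_prop)).measurableSet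
  · exact hd.exists_mem_open (s := {x : SL2 | x⁻¹ * g ∈ A ∩ B})
      ((oA.inter oB).preimage (by fun_prop)) ⟨g, by simpa using ⟨hA, hB⟩⟩
  · have := hAB (mk_mem_prod hg.1 hg'.2)
    simpa only [mem_map, mem_preimage, mem_ofPred_eq, mul_inv_rev, inv_inv, mul_assoc,
      mul_inv_cancel_left] using this

end Pool.Agent.Lib.MP_a52643_an.AC
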