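import Pool.Agent.Lib.MP_a52643_an.AC.Ham
import Pool.Agent.Lib.MP_a52643_an.AC.Lus
import Pool.Agent.Lib.MP_a52643_an.AC.Ener

/-!
The names of rate above one half do not charge the null sets of the surface.
-/

open MeasureTheory Set Filter Topology Metric UpperHalfPlane
open scoped MatrixGroups ENNReal

noncomputable section

namespace Pool.Agent.Lib.MP_a52643_an.AC

open SE NS

variable {Γ : Type} [Group Γ] [MulAction Γ ℍ] {e : ℝ}

/-- the invariant Borel sets -/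
@[reducible] def invS (Γ : Type) [Group Γ] [MulAction Γ ℍ] : MeasurableSpace SL2 where
  MeasurableSet' A := MeasurableSet[instMeasSL2] A ∧ ∀ γ ∈ Lam Γ, ∀ g, γ * g ∈ A ↔ g ∈ A
  measurableSet_empty := ⟨MeasurableSet.empty, by simp⟩
  measurableSet_compl A h := ⟨h.1.compl, fun γ hγ g => not_congr (h.2 γ hγ g)⟩
  measurableSet_iUnion f h := ⟨MeasurableSet.iUnion fun i => (h i).1, fun γ hγ g => by
    simp only [mem_iUnion]
    exact exists_congr fun i => (h i).2 γ hγ g⟩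

lemma invS_le : invS Γ ≤ instMeasSL2 := fun _ h => h.1

lemma main_fl (μ : Measure SL2)
    (hinv : ∀ (t : ℝ) (A : Set SL2), MeasurableSet A → (∀ γ ∈ Lam Γ, ∀ g, γ * g ∈ A ↔ g ∈ A) →
      μ {g | g * aG t ∈ A} = μ A) (τ : ℝ) :
    @Fl SL2 (invS Γ) (μ.trim invS_le) fun j g => g * aG (j * τ) := by
  have hm : ∀ t : ℝ, @Measurable SL2 SL2 (invS Γ) (invS Γ) fun g => g * aG t := fun t A hA =>
    ⟨(measurable_mul_const (aG t)) hA.1, fun γ hγ g => by
      simp only [mem_preimage, mul_assoc]; exact hA.2 γ hγ _⟩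
  refine @Fl.mk SL2 (invS Γ) _ _ (fun j => ?_) (fun g => by simp [aG_zero]) fun i j g => ?_
  · refine @MeasurePreserving.mk _ _ (invS Γ) (invS Γ) _ _ _ (hm _) ?_
    refine @Measure.ext _ (invS Γ) _ _ fun A hA => ?_
    rw [@Measure.map_apply _ _ (invS Γ) (invS Γ) _ _ (hm _) _ hA, trim_measurableSet_eq _ (hm _ hA),
      trim_measurableSet_eq _ hA]
    exact hinv _ A hA.1 hA.2
  · rw [mul_assoc, ← aG_add]
    congr 2; push_cast; ring

lemma main_conj (u : SL2) (t : ℝ) : ea (aG (-t) * u * aG t) = ea u ∧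
    eb (aG (-t) * u * aG t) = Real.exp t * eb u ∧ ec (aG (-t) * u * aG t) = Real.exp (-t) * ec u ∧
    ed (aG (-t) * u * aG t) = ed u := by
  have h1 := exp_half t
  have h2 := exp_half' t
  have h3 := exp_half (-t)
  simp only [aG, ea_mul, eb_mul, ec_mul, ed_mul, ea_mkG, eb_mkG, ec_mkG, ed_mkG, neg_neg]
  refine ⟨?_, ?_, ?_, ?_⟩
  · linear_combination ea u * h2
  · linear_combination eb u * h1
  · linear_combination ec u * h3
  · linear_combination ed u * h2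

open Classical in
theorem main_tubes (H : Act Γ e) (e0 : 0 < e) (μ : Measure SL2) [IsProbabilityMeasure μ]
    (hinv : ∀ (t : ℝ) (A : Set SL2), MeasurableSet A → (∀ γ ∈ Lam Γ, ∀ g, γ * g ∈ A ↔ g ∈ A) →
      μ {g | g * aG t ∈ A} = μ A)
    {N : ℕ} {c : SL2 → Fin N} {τ δ q : ℝ} (τ0 : 0 < τ) (δ0 : 0 < δ) (mc : Measurable c)
    (ic : ∀ γ ∈ Lam Γ, ∀ g, c (γ * g) = c g)
    (hH : ∃ᶠ n : ℕ in atTop, ∑ w ∈ words (Fin N) n with
      inf (wgt μ c τ) w ≤ (1 / 2 + δ) * (n * τ), wgt μ c τ w ≤ q) {η : ℝ} (η0 : 0 < η) :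
    ∃ (E : Set SL2) (ε : ℝ) (n₁ : ℕ), MeasurableSet E ∧ 1 - q - η ≤ μ.real E ∧ 0 < ε ∧
      ε ≤ 1 / 10 ∧ ∀ n : ℕ, n₁ ≤ n → ∀ g ∈ E,
        μ.real (E ∩ {g' | |ea (g⁻¹ * g') - 1| ≤ ε ∧ |ed (g⁻¹ * g') - 1| ≤ ε ∧
          max |eb (g⁻¹ * g')| |ec (g⁻¹ * g')| ≤ ε * Real.exp (-(τ * n))})
          ≤ Real.exp (-((1 + δ) * τ * n)) := by
  have hT := main_fl μ hinv τ
  have hp : @IsProbabilityMeasure SL2 (invS Γ) (μ.trim invS_le) := 
    @IsProbabilityMeasure.mk _ (invS Γ) _ (by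
      rw [trim_measurableSet_eq _ (@MeasurableSet.univ _ (invS Γ)), measure_univ])
  have hc : ∀ s, MeasurableSet[invS Γ] {g | c g = s} := fun s =>
    ⟨mc (measurableSet_singleton s), fun γ hγ g => by simp only [mem_ofPred_eq, ic γ hγ]⟩
  have tr : ∀ A, MeasurableSet[invS Γ] A → (μ.trim invS_le).real A = μ.real A := fun A hA => by
    rw [Measure.real, trim_measurableSet_eq _ hA, Measure.real]
  have hw : ∀ (n : ℕ) (w : Fin n → Fin N), (μ.trim (invS_le (Γ := Γ))).real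
      {g | ∀ i : Fin n, c (g * aG ((((i : ℕ) : ℤ) : ℝ) * τ)) = w i} = wgt μ c τ (List.ofFn w) := by
    intro n w
    rw [tr, wgt]
    · congr 1
      ext g
      simp only [mem_ofPred_eq, List.length_ofFn, List.getElem_ofFn, Int.cast_natCast]
      exact ⟨fun h j hj => h ⟨j, hj⟩, fun h i => h i i.2⟩
    · rw [ofPred_forall]
      exact @MeasurableSet.iInter _ _ (invS Γ) _ _ fun i =>
        @MeasurePreserving.measurable _ _ (invS Γ) (invS Γ) _ _ _ (@Fl.mp _ (invS Γ) _ _ hT _) _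
          (hc (w i))
  obtain ⟨κ, κ0, hκ⟩ := @Fl.tubes SL2 (Fin N) (invS Γ) _ _ hp _ c hT hc ((1 / 2 + δ) * τ)
    ((1 / 2 + δ / 2) * τ) q η (by nlinarith) η0 (hH.mono fun n hn => by
      rw [@Fl.mass_J SL2 (Fin N) (invS Γ) _ _ hp _ c hT hc]
      rw [Finset.sum_filter, sum_words_ofFn] at hn
      refine le_trans (le_of_eq (Finset.sum_congr rfl fun w _ => ?_)) hn
      rw [hw, inf, mul_assoc, mul_comm τ])
  obtain ⟨K, ε, mK, iK, K1, ε0, ε1, hK⟩ := lusin H e0 μ mc ic κ0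
  have mK' : MeasurableSet[invS Γ] K := ⟨mK, iK⟩
  obtain ⟨E, n₁, mE, E1, hE⟩ := hκ K mK' (by rwa [tr _ mK'.compl])
  rw [tr _ mE] at E1
  refine ⟨E, ε, n₁, mE.1, E1, ε0, ε1, fun n hn g hg => ?_⟩
  refine le_trans ?_ ((hE n hn g hg).trans (le_of_eq (by congr 2; ring)))
  refine le_trans (measureReal_mono (inter_subset_inter_right _ ?_)) (ENNReal.toReal_mono
    (@measure_ne_top _ (invS Γ) _ _ _) (le_trim invS_le))
  rintro g' ⟨h1, h2, h3⟩ j j1 j2 k1 k2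
  obtain ⟨e1, e2, e3, e4⟩ := main_conj (g⁻¹ * g') (j * τ)
  have e5 : g' * aG (j * τ) = g * aG (j * τ) * (aG (-(j * τ)) * (g⁻¹ * g') * aG (j * τ)) := by
    rw [aG_neg]; group
  have j3 : -(n : ℝ) ≤ j := by exact_mod_cast j1
  have j4 : (j : ℝ) ≤ n := by exact_mod_cast j2.le
  have bd : ∀ x t : ℝ, t ≤ τ * n → |x| ≤ ε * Real.exp (-(τ * n)) → |Real.exp t * x| ≤ ε := by
    intro x t ht hx
    rw [abs_mul, abs_of_pos (Real.exp_pos t)]
    calc _ ≤ Real.exp (τ * n) * (ε * Real.exp (-(τ * n))) := by gcongr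
      _ = ε := by rw [mul_left_comm, ← Real.exp_add]; simp
  rw [e5] at k2 ⊢
  refine hK _ _ (by rwa [e1]) ?_ ?_ (by rwa [e4]) k1 k2
  · rw [e2]; exact bd _ _ (by nlinarith) ((le_max_left _ _).trans h3)
  · rw [e3]; exact bd _ _ (by nlinarith) ((le_max_right _ _).trans h3)

open Classical in
theorem null_le (H : Act Γ e) (e0 : 0 < e) (μ : Measure SL2) [IsProbabilityMeasure μ]
    (hinv : ∀ (t : ℝ) (A : Set SL2), MeasurableSet A → (∀ γ ∈ Lam Γ, ∀ g, γ * g ∈ A ↔ g ∈ A) →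
      μ {g | g * aG t ∈ A} = μ A)
    {N : ℕ} {c : SL2 → Fin N} {τ δ q : ℝ} (τ0 : 0 < τ) (δ0 : 0 < δ) (mc : Measurable c)
    (ic : ∀ γ ∈ Lam Γ, ∀ g, c (γ * g) = c g)
    (hH : ∃ᶠ n : ℕ in atTop, ∑ w ∈ words (Fin N) n with
      inf (wgt μ c τ) w ≤ (1 / 2 + δ) * (n * τ), wgt μ c τ w ≤ q)
    {Z : Set ℍ} (mZ : MeasurableSet Z) (iZ : ∀ (γ : Γ) (z : ℍ), γ • z ∈ Z ↔ z ∈ Z)
    (hZ : volume Z = 0) : μ.real (bp ⁻¹' Z) ≤ q := by
  refine le_of_forall_pos_le_add fun η η0 => ?_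
  obtain ⟨E, ε, n₁, mE, E1, ε0, ε1, hE⟩ := main_tubes H e0 μ hinv τ0 δ0 mc ic hH η0
  obtain ⟨W, mW, cW, hW⟩ := small_box ε0
  have mf : Measurable fun p : SL2 × ℝ => bp (p.1 * aG p.2) := by fun_prop
  have h1 : ∀ i, ((μ.restrict (E ∩ W i)).prod (volume.restrict (Icc (0 : ℝ) 1)))
      ((fun p : SL2 × ℝ => bp (p.1 * aG p.2)) ⁻¹' Z) = 0 := fun i => by
    have a1 : ∀ᵐ g ∂μ.restrict (E ∩ W i), g ∈ E ∩ W i := ae_restrict_mem (mE.inter (mW i))
    obtain ⟨B, hB, b⟩ := energy_le (μ.restrict (E ∩ W i)) ε0 τ0 δ0 n₁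
    rw [← Measure.map_apply mf mZ]
    refine proj_ac _ hB ?_ ?_ hZ
    · filter_upwards [a1] with g hg
      filter_upwards [a1] with g' hg'
      obtain ⟨b1, b2, b3, b4⟩ := hW i g hg.2 g' hg'.2
      exact ⟨b1.trans ε1, b2.trans ε1, b3.trans ε1, b4.trans ε1⟩
    · filter_upwards [a1] with g hg
      refine b g ?_ fun n hn => ?_
      · filter_upwards [a1] with g' hg'
        obtain ⟨-, b2, b3, -⟩ := hW i g hg.2 g' hg'.2
        exact max_le b2 b3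
      · rw [measureReal_restrict_apply' (mE.inter (mW i))]
        refine le_trans (measureReal_mono fun g' hg' => ?_) (hE n hn g hg.1)
        obtain ⟨b1, -, -, b4⟩ := hW i g hg.2 g' hg'.2.2
        exact ⟨hg'.2.1, b1, b4, hg'.1⟩
  have h2 : ∀ᵐ t ∂volume.restrict (Icc (0 : ℝ) 1), ∀ i,
      μ.restrict (E ∩ W i) {g | bp (g * aG t) ∈ Z} = 0 := ae_all_iff.2 fun i => by
    have := h1 i
    rw [Measure.prod_apply_symm (mf mZ), lintegral_eq_zero_iff
      (measurable_measure_prodMk_right (mf mZ))] at this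
    exact this
  have : (ae (volume.restrict (Icc (0 : ℝ) 1))).NeBot := ae_restrict_neBot.2 (by simp)
  obtain ⟨t, ht⟩ := h2.exists
  have h3 : μ ({g | bp (g * aG t) ∈ Z} ∩ E) = 0 := by
    refine measure_mono_null (t := ⋃ i, {g | bp (g * aG t) ∈ Z} ∩ (E ∩ W i)) (fun g hg => ?_)
      (measure_iUnion_null fun i => ?_)
    · obtain ⟨i, hi⟩ := cW g
      exact mem_iUnion.2 ⟨i, hg.1, hg.2, hi⟩
    · rw [← Measure.restrict_apply' (mE.inter (mW i))]; exact ht i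
  have h4 := hinv t (bp ⁻¹' Z) (measurable_bp mZ) fun γ ⟨γ', hγ⟩ g => by
    rw [mem_preimage, mem_preimage, bp_mul, ← hγ, iZ]
  have h5 : μ (bp ⁻¹' Z) ≤ μ Eᶜ := by
    rw [← h4]
    refine le_trans (measure_le_inter_add_sdiff μ _ E) ?_
    rw [show μ ({g | g * aG t ∈ bp ⁻¹' Z} ∩ E) = 0 from h3, zero_add]
    exact measure_mono fun g hg => hg.2
  have h6 := ENNReal.toReal_mono (measure_ne_top _ _) h5
  have h7 := probReal_compl_eq_one_sub (μ := μ) mE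
  simp only [Measure.real] at h7 E1 ⊢
  linarith

end Pool.Agent.Lib.MP_a52643_an.AC
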