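import Pool.Agent.Lib.MP_a52643_an.AC.Defs

/-!
The maximal ergodic lemma and two consequences.
-/

open MeasureTheory Set Filter

noncomputable section

namespace Pool.Agent.Lib.MP_a52643_an.AC

variable {Ω : Type} [MeasurableSpace Ω] {μ : Measure Ω}

theorem Max_int_comp {U : Ω → Ω} (hU : MeasurePreserving U μ μ) {g : Ω → ℝ} (mg : Measurable g) :
    ∫ ω, g (U ω) ∂μ = ∫ ω, g ω ∂μ := by
  rw [← integral_map hU.measurable.aemeasurable mg.aestronglyMeasurable, hU.map_eq]

/-- the largest of the first partial sums -/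
def Max_M (U : Ω → Ω) (F : Ω → ℝ) : ℕ → Ω → ℝ
  | 0, _ => 0
  | N + 1, ω => max 0 (F ω + Max_M U F N (U ω))

omit [MeasurableSpace Ω] in
theorem Max_sum_succ (U : Ω → Ω) (F : Ω → ℝ) (n : ℕ) (ω : Ω) :
    ∑ j ∈ Finset.range (n + 1), F (U^[j] ω) = F ω + ∑ j ∈ Finset.range n, F (U^[j] (U ω)) := by
  rw [Finset.sum_range_succ', add_comm]
  rfl

theorem garsia [IsProbabilityMeasure μ] {U : Ω → Ω} (hU : MeasurePreserving U μ μ) {F : Ω → ℝ}
    (mF : Measurable F) (iF : Integrable F μ) :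
    0 ≤ ∫ ω in {ω | ∃ n : ℕ, 0 < ∑ j ∈ Finset.range n, F (U^[j] ω)}, F ω ∂μ := by
  have m0 : ∀ N ω, 0 ≤ Max_M U F N ω := by
    rintro (_ | N) ω
    · exact le_rfl
    · exact le_max_left _ _
  have mM : ∀ N, Measurable (Max_M U F N) := by
    intro N
    induction N with
    | zero => exact measurable_const
    | succ N ih => exact measurable_const.max (mF.add (ih.comp hU.measurable))
  have iM : ∀ N, Integrable (Max_M U F N) μ := by
    intro N
    induction N with
    | zero => exact integrable_const (0 : ℝ)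
    | succ N ih =>
      exact (integrable_const (0 : ℝ)).sup (iF.add (hU.integrable_comp_of_integrable ih))
  have mono : ∀ N ω, Max_M U F N ω ≤ Max_M U F (N + 1) ω := by
    intro N
    induction N with
    | zero => exact fun ω => m0 _ _
    | succ N ih => exact fun ω => max_le_max le_rfl (add_le_add le_rfl (ih (U ω)))
  have le1 : ∀ n ω, ∑ j ∈ Finset.range n, F (U^[j] ω) ≤ Max_M U F n ω := by
    intro n
    induction n with
    | zero => exact fun ω => by simp [Max_M]
    | succ n ih =>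
      intro ω
      rw [Max_sum_succ]
      exact (add_le_add le_rfl (ih (U ω))).trans (le_max_right _ _)
  have ex : ∀ N ω, ∃ n, Max_M U F N ω = ∑ j ∈ Finset.range n, F (U^[j] ω) := by
    intro N
    induction N with
    | zero => exact fun ω => ⟨0, by simp [Max_M]⟩
    | succ N ih =>
      intro ω
      obtain ⟨n, hn⟩ := ih (U ω)
      rcases le_total 0 (F ω + Max_M U F N (U ω)) with h | h
      · exact ⟨n + 1, by rw [Max_sum_succ, ← hn]; exact max_eq_right h⟩
      · exact ⟨0, by rw [Finset.sum_range_zero]; exact max_eq_left h⟩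
  have mA : ∀ N, MeasurableSet {ω | 0 < Max_M U F (N + 1) ω} := fun N =>
    measurableSet_lt measurable_const (mM _)
  have hU' : {ω | ∃ n : ℕ, 0 < ∑ j ∈ Finset.range n, F (U^[j] ω)} =
      ⋃ N, {ω | 0 < Max_M U F (N + 1) ω} := by
    ext ω
    rw [mem_iUnion]
    constructor
    · rintro ⟨n, hn⟩
      exact ⟨n, lt_of_lt_of_le hn ((le1 n ω).trans (mono n ω))⟩
    · rintro ⟨N, hN⟩
      obtain ⟨n, hn⟩ := ex (N + 1) ω
      exact ⟨n, hn ▸ hN⟩
  rw [hU']
  refine ge_of_tendsto' (tendsto_setIntegral_of_monotone mA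
    (monotone_nat_of_le_succ fun N ω h => lt_of_lt_of_le h (mono _ ω)) iF.integrableOn) fun N => ?_
  have iU : Integrable (fun ω => Max_M U F N (U ω)) μ := hU.integrable_comp_of_integrable (iM N)
  rw [← integral_indicator (mA N)]
  calc (0 : ℝ) ≤ ∫ ω, Max_M U F (N + 1) ω ∂μ - ∫ ω, Max_M U F N ω ∂μ :=
        sub_nonneg.2 (integral_mono (iM N) (iM (N + 1)) (mono N))
    _ = ∫ ω, (Max_M U F (N + 1) ω - Max_M U F N (U ω)) ∂μ := by
        rw [integral_sub (iM _) iU, Max_int_comp hU (mM N)]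
    _ ≤ _ := by
        refine integral_mono ((iM _).sub iU) (iF.indicator (mA N)) fun ω => ?_
        have h1 := m0 N (U ω)
        by_cases h : 0 < Max_M U F (N + 1) ω
        · rw [indicator_of_mem (show ω ∈ {ω | 0 < Max_M U F (N + 1) ω} from h)]
          have h2 : Max_M U F (N + 1) ω = F ω + Max_M U F N (U ω) :=
            max_eq_right (le_of_lt ((lt_max_iff.1 h).resolve_left (lt_irrefl _)))
          show Max_M U F (N + 1) ω - Max_M U F N (U ω) ≤ F ω
          linarith
        · rw [indicator_of_notMem (show ω ∉ {ω | 0 < Max_M U F (N + 1) ω} from h)]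
          show Max_M U F (N + 1) ω - Max_M U F N (U ω) ≤ 0
          linarith [not_lt.1 h]

theorem Max_inv [IsProbabilityMeasure μ] {U : Ω → Ω} (hU : MeasurePreserving U μ μ) {F : Ω → ℝ}
    (mF : Measurable F) (iF : Integrable F μ) {B : Set Ω} (mB : MeasurableSet B)
    (hB : ∀ ω, U ω ∈ B ↔ ω ∈ B) (h : ∀ ω ∈ B, ∃ n : ℕ, 0 < ∑ j ∈ Finset.range n, F (U^[j] ω)) :
    0 ≤ ∫ ω in B, F ω ∂μ := by
  have it : ∀ (j : ℕ) ω, U^[j] ω ∈ B ↔ ω ∈ B := by
    intro j
    induction j with
    | zero => exact fun ω => Iff.rfl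
    | succ j ih => exact fun ω => (ih (U ω)).trans (hB ω)
  have h1 := garsia hU (mF.indicator mB) (iF.indicator mB)
  have h2 : {ω | ∃ n : ℕ, 0 < ∑ j ∈ Finset.range n, B.indicator F (U^[j] ω)} = B := by
    ext ω
    constructor
    · rintro ⟨n, hn⟩
      by_contra hω
      rw [Finset.sum_eq_zero fun j _ => indicator_of_notMem (fun h => hω ((it j ω).1 h)) _] at hn
      exact lt_irrefl _ hn
    · intro hω
      obtain ⟨n, hn⟩ := h ω hω
      exact ⟨n, by rwa [Finset.sum_congr rfl fun j _ => indicator_of_mem ((it j ω).2 hω) F]⟩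
  rw [h2, setIntegral_congr_fun mB fun ω hω => indicator_of_mem hω F] at h1
  exact h1

/-- the points with partial sums that are not bounded from above -/
def Max_U (U : Ω → Ω) (F : Ω → ℝ) : Set Ω :=
  {ω | ∀ C : ℕ, ∃ n : ℕ, (C : ℝ) < ∑ j ∈ Finset.range n, F (U^[j] ω)}

theorem Max_U_meas {U : Ω → Ω} (mU : Measurable U) {F : Ω → ℝ} (mF : Measurable F) :
    MeasurableSet (Max_U U F) := by
  unfold Max_U
  rw [ofPred_forall]
  refine MeasurableSet.iInter fun C => ?_
  rw [ofPred_exists]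
  exact MeasurableSet.iUnion fun n => measurableSet_lt measurable_const
    (Finset.measurable_sum _ fun j _ => mF.comp (mU.iterate j))

omit [MeasurableSpace Ω] in
theorem Max_U_inv (U : Ω → Ω) (F : Ω → ℝ) (ω : Ω) : U ω ∈ Max_U U F ↔ ω ∈ Max_U U F := by
  obtain ⟨K, hK⟩ := exists_nat_ge |F ω|
  have h1 := (abs_le.1 hK).1
  have h2 := (abs_le.1 hK).2
  constructor
  · intro h C
    obtain ⟨n, hn⟩ := h (C + K)
    refine ⟨n + 1, ?_⟩
    rw [Max_sum_succ]
    push_cast at hn
    linarith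
  · intro h C
    obtain ⟨n, hn⟩ := h (C + K)
    rcases n with _ | n
    · rw [Finset.sum_range_zero] at hn
      exact absurd hn (not_lt.2 (Nat.cast_nonneg _))
    · rw [Max_sum_succ] at hn
      push_cast at hn
      exact ⟨n, by linarith⟩

theorem Max_sum_Ico (g : ℤ → ℝ) (n : ℕ) : ∑ j ∈ Finset.Ico (-(n : ℤ)) n, g j =
    ∑ j ∈ Finset.range n, g j + ∑ j ∈ Finset.range n, g (-1 + -(j : ℤ)) := by
  induction n with
  | zero => simp
  | succ n ih =>
    have h : Finset.Ico (-((n + 1 : ℕ) : ℤ)) ((n + 1 : ℕ) : ℤ) =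
        insert (-1 + -(n : ℤ)) (insert (n : ℤ) (Finset.Ico (-(n : ℤ)) n)) := by
      ext j
      simp only [Finset.mem_Ico, Finset.mem_insert]
      omega
    rw [h, Finset.sum_insert (by simp only [Finset.mem_Ico, Finset.mem_insert]; omega),
      Finset.sum_insert (by simp only [Finset.mem_Ico]; omega), ih, Finset.sum_range_succ,
      Finset.sum_range_succ]
    ring

variable {T : ℤ → Ω → Ω}

theorem Fl.Max_fwd (hT : Fl μ T) (j : ℕ) (ω : Ω) : (T 1)^[j] ω = T j ω := by
  induction j with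
  | zero => exact (hT.zero ω).symm
  | succ j ih => rw [Function.iterate_succ_apply', ih, ← hT.add, add_comm]; rfl

theorem Fl.Max_bwd (hT : Fl μ T) (j : ℕ) (ω : Ω) :
    T (-1) ((T (-1))^[j] ω) = T (-1 + -(j : ℤ)) ω := by
  induction j with
  | zero => simp
  | succ j ih =>
    rw [Function.iterate_succ_apply', ih, ← hT.add]
    congr 1
    push_cast
    ring

theorem Fl.two_sided [IsProbabilityMeasure μ] (hT : Fl μ T) {F : Ω → ℝ} (mF : Measurable F)
    (iF : Integrable F μ) {ε : ℝ} (ε0 : 0 < ε) :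
    ∀ᵐ ω ∂μ, (∃ C : ℝ, ∀ n : ℕ, -C ≤ ∑ j ∈ Finset.Ico (-(n : ℤ)) n, F (T j ω)) ∨
      ∀ᶠ n : ℕ in atTop, ∑ j ∈ Finset.range n, F (T j ω) ≤ ε * n := by
  have e1 : ∀ ω, T 1 (T (-1) ω) = ω := fun ω => by rw [← hT.add]; exact hT.zero ω
  have e2 : ∀ ω, T (-1) (T 1 ω) = ω := fun ω => by rw [← hT.add]; exact hT.zero ω
  have m1 := (hT.mp 1).measurable
  have m2 := (hT.mp (-1)).measurable
  have mG : Measurable fun ω => F ω - ε / 2 := mF.sub measurable_const
  have iG : Integrable (fun ω => F ω - ε / 2) μ := iF.sub (integrable_const _)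
  have null : ∀ D : Set Ω, MeasurableSet D → (∀ ω, T 1 ω ∈ D ↔ ω ∈ D) →
      D ⊆ Max_U (T 1) (fun ω => F ω - ε / 2) → ∫ ω in D, F ω ∂μ ≤ 0 → μ D = 0 := by
    intro D mD hD h1 h2
    have h3 := Max_inv (hT.mp 1) mG iG mD hD fun ω hω => by simpa only [Nat.cast_zero] using h1 hω 0
    rw [integral_sub iF.integrableOn (integrable_const _), setIntegral_const, smul_eq_mul] at h3
    have h4 : μ.real D ≤ 0 := by nlinarith
    exact (measureReal_eq_zero_iff (measure_ne_top _ _)).1 (le_antisymm h4 measureReal_nonneg)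
  have mB := Max_U_meas m1 mG
  have n1 : μ (Max_U (T 1) (fun ω => F ω - ε / 2) ∩ Max_U (T 1) fun ω => -F ω) = 0 := by
    have mN : Measurable fun ω => -F ω := mF.neg
    have iN : Integrable (fun ω => -F ω) μ := iF.neg
    have mD := mB.inter (Max_U_meas m1 mN)
    have hD : ∀ ω, T 1 ω ∈ Max_U (T 1) (fun ω => F ω - ε / 2) ∩ Max_U (T 1) (fun ω => -F ω) ↔
        ω ∈ Max_U (T 1) (fun ω => F ω - ε / 2) ∩ Max_U (T 1) fun ω => -F ω := fun ω =>
      and_congr (Max_U_inv _ _ ω) (Max_U_inv _ _ ω)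
    refine null _ mD hD inter_subset_left ?_
    have := Max_inv (hT.mp 1) mN iN mD hD fun ω hω => by
      simpa only [Nat.cast_zero] using hω.2 0
    rw [integral_neg] at this
    linarith
  have n2 : μ (Max_U (T 1) (fun ω => F ω - ε / 2) ∩
      Max_U (T (-1)) fun ω => -F (T (-1) ω)) = 0 := by
    have mH : Measurable fun ω => -F (T (-1) ω) := (mF.comp m2).neg
    have iH : Integrable (fun ω => -F (T (-1) ω)) μ :=
      ((hT.mp (-1)).integrable_comp_of_integrable iF).neg
    set D := Max_U (T 1) (fun ω => F ω - ε / 2) ∩ Max_U (T (-1)) fun ω => -F (T (-1) ω) with hDef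
    have mD : MeasurableSet D := mB.inter (Max_U_meas m2 mH)
    have hD : ∀ ω, T 1 ω ∈ D ↔ ω ∈ D := fun ω =>
      and_congr (Max_U_inv _ _ ω) (by rw [← Max_U_inv (T (-1)) _ (T 1 ω), e2])
    have hD' : ∀ ω, T (-1) ω ∈ D ↔ ω ∈ D := fun ω => by rw [← hD (T (-1) ω), e1]
    refine null _ mD hD inter_subset_left ?_
    have h1 := Max_inv (hT.mp (-1)) mH iH mD hD' fun ω hω => by
      simpa only [Nat.cast_zero] using hω.2 0
    have h2 : ∫ ω in D, F (T (-1) ω) ∂μ = ∫ ω in D, F ω ∂μ := by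
      rw [← integral_indicator mD, ← integral_indicator mD,
        ← Max_int_comp (hT.mp (-1)) (mF.indicator mD)]
      refine integral_congr_ae (Eventually.of_forall fun ω => ?_)
      by_cases h : ω ∈ D
      · simp only [indicator_of_mem h, indicator_of_mem ((hD' ω).2 h)]
      · simp only [indicator_of_notMem h, indicator_of_notMem fun h' => h ((hD' ω).1 h')]
    rw [integral_neg, h2] at h1
    linarith
  filter_upwards [measure_eq_zero_iff_ae_notMem.1 n1, measure_eq_zero_iff_ae_notMem.1 n2]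
    with ω a1 a2
  by_cases hB : ω ∈ Max_U (T 1) fun ω => F ω - ε / 2
  · left
    have b1 : ω ∉ Max_U (T 1) fun ω => -F ω := fun h => a1 ⟨hB, h⟩
    have b2 : ω ∉ Max_U (T (-1)) fun ω => -F (T (-1) ω) := fun h => a2 ⟨hB, h⟩
    simp only [Max_U, mem_ofPred_eq, not_forall, not_exists, not_lt, hT.Max_fwd, hT.Max_bwd,
      Finset.sum_neg_distrib] at b1 b2
    obtain ⟨C1, c1⟩ := b1
    obtain ⟨C2, c2⟩ := b2
    refine ⟨C1 + C2, fun n => ?_⟩
    rw [Max_sum_Ico (fun j => F (T j ω))]
    linarith [c1 n, c2 n]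
  · right
    simp only [Max_U, mem_ofPred_eq, not_forall, not_exists, not_lt, hT.Max_fwd,
      Finset.sum_sub_distrib, Finset.sum_const, Finset.card_range, nsmul_eq_mul] at hB
    obtain ⟨C, hC⟩ := hB
    filter_upwards [tendsto_natCast_atTop_atTop.eventually_ge_atTop (2 * (C : ℝ) / ε)] with n hn
    have := (div_le_iff₀ ε0).1 hn
    linarith [hC n]

theorem Max_freq [IsProbabilityMeasure μ] {U : Ω → Ω} (hU : MeasurePreserving U μ μ) {B : Set Ω}
    (mB : MeasurableSet B) {k : ℝ} (k0 : 0 < k) :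
    μ.real {ω | ∃ n : ℕ, k * n < ∑ j ∈ Finset.range n, B.indicator (fun _ => (1 : ℝ)) (U^[j] ω)} ≤
      μ.real B / k := by
  have mI : Measurable (B.indicator fun _ => (1 : ℝ)) := measurable_const.indicator mB
  have iI : Integrable (B.indicator fun _ => (1 : ℝ)) μ := (integrable_const _).indicator mB
  have h1 := garsia hU (F := fun ω => B.indicator (fun _ => (1 : ℝ)) ω - k)
    (mI.sub measurable_const) (iI.sub (integrable_const _))
  simp only [Finset.sum_sub_distrib, Finset.sum_const, Finset.card_range, nsmul_eq_mul, sub_pos,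
    mul_comm _ k] at h1
  rw [integral_sub iI.integrableOn (integrable_const _), setIntegral_const, smul_eq_mul] at h1
  have h2 := setIntegral_le_integral
    (s := {ω | ∃ n : ℕ, k * n < ∑ j ∈ Finset.range n, B.indicator (fun _ => (1 : ℝ)) (U^[j] ω)}) iI
    (Eventually.of_forall fun ω => indicator_nonneg (fun _ _ => zero_le_one) ω)
  have h3 : ∫ ω, B.indicator (fun _ => (1 : ℝ)) ω ∂μ = μ.real B := by
    rw [integral_indicator_const _ mB, smul_eq_mul, mul_one]
  rw [le_div_iff₀ k0]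
  linarith

open Classical in
theorem Fl.freq [IsProbabilityMeasure μ] (hT : Fl μ T) {B : Set Ω} (mB : MeasurableSet B) {k : ℝ}
    (k0 : 0 < k) :
    μ.real {ω | ∃ n : ℕ, k * (2 * n) <
      (((Finset.Ico (-(n : ℤ)) n).filter fun j => T j ω ∈ B).card : ℝ)} ≤ 2 * μ.real B / k := by
  have h1 := Max_freq (hT.mp 1) mB k0
  have h2 := Max_freq (hT.mp (-1)) ((hT.mp (-1)).measurable mB) k0
  rw [(hT.mp (-1)).measureReal_preimage mB.nullMeasurableSet] at h2
  refine le_trans (measureReal_mono (fun ω hω => ?_) (measure_ne_top _ _))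
    ((measureReal_union_le _ _).trans ((add_le_add h1 h2).trans (le_of_eq (by ring))))
  obtain ⟨n, hn⟩ := hω
  rw [Finset.card_filter] at hn
  push_cast at hn
  rw [Max_sum_Ico (fun j => if T j ω ∈ B then (1 : ℝ) else 0)] at hn
  by_contra hc
  simp only [mem_union, mem_ofPred_eq, not_or, not_exists, not_lt, indicator_apply, mem_preimage,
    hT.Max_fwd, hT.Max_bwd] at hc
  linarith [hc.1 n, hc.2 n]

end Pool.Agent.Lib.MP_a52643_an.AC
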