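import Pool.Agent.Lib.MP_a52643_an.AC.Key

/-!
Conditional information with finite memory.
-/

open MeasureTheory Set

noncomputable section

namespace Pool.Agent.Lib.MP_a52643_an.AC

variable {Ω S : Type} [MeasurableSpace Ω] [Fintype S] {μ : Measure Ω} [IsProbabilityMeasure μ]
  {T : ℤ → Ω → Ω} {c : Ω → S}

/-- information of the present symbol given the last `m` symbols -/
def Gm (μ : Measure Ω) (T : ℤ → Ω → Ω) (c : Ω → S) (m : ℕ) (ω : Ω) : ℝ :=
  J μ T c (-(m : ℤ)) 1 ω - J μ T c (-(m : ℤ)) 0 ω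

theorem Fl.meas_Gm (hT : Fl μ T) (hc : ∀ s, MeasurableSet {ω | c ω = s}) (m : ℕ) :
    Measurable (Gm μ T c m) := by
  unfold Gm J
  exact (hT.meas_P hc _ _).log.neg.sub (hT.meas_P hc _ _).log.neg

theorem Fl.int_Gm (hT : Fl μ T) (hc : ∀ s, MeasurableSet {ω | c ω = s}) (m : ℕ) :
    Integrable (Gm μ T c m) μ := by
  exact (hT.int_J hc _ _).sub (hT.int_J hc _ _)

theorem Fl.Gm_nn (hT : Fl μ T) (hc : ∀ s, MeasurableSet {ω | c ω = s}) (m : ℕ) :
    ∀ᵐ ω ∂μ, 0 ≤ Gm μ T c m ω := by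
  filter_upwards [hT.P_pos hc (-(m : ℤ)) 1] with ω h
  have := Real.log_le_log h (P_anti (μ := μ) (T := T) (c := c) (a := -(m : ℤ)) (b := 0)
    le_rfl zero_le_one ω)
  unfold Gm J
  linarith

theorem mem_abs {a : ℝ} (a0 : 0 < a) (a1 : a ≤ 1) (u : ℝ) :
    |u| ≤ a + 2 / a * (Real.exp u - 1 - u) := by
  have h : a * |u| ≤ a * a + 2 * (Real.exp u - 1 - u) := by
    by_cases hu : -2 ≤ u
    · have h1 := Real.add_one_le_exp (u / 2)
      have h2 : Real.exp u = Real.exp (u / 2) * Real.exp (u / 2) := by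
        rw [← Real.exp_add]; congr 1; ring
      have h3 : (u / 2 + 1) * (u / 2 + 1) ≤ Real.exp u := by
        rw [h2]; exact mul_self_le_mul_self (by linarith) h1
      have h4 : |u| * |u| = u * u := abs_mul_abs_self u
      nlinarith [sq_nonneg (a - |u| / 2), mul_self_nonneg u]
    · have h1 := Real.exp_pos u
      rw [abs_of_neg (by linarith)]
      nlinarith
  have h2 : a + 2 / a * (Real.exp u - 1 - u) = (a * a + 2 * (Real.exp u - 1 - u)) / a := by
    field_simp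
  rw [h2, le_div_iff₀ a0]
  linarith

theorem Fl.mem_exp (hT : Fl μ T) (hc : ∀ s, MeasurableSet {ω | c ω = s}) {m m' : ℕ} (h : m ≤ m') :
    Integrable (fun ω => Real.exp (Gm μ T c m' ω - Gm μ T c m ω)) μ ∧
      ∫ ω, Real.exp (Gm μ T c m' ω - Gm μ T c m ω) ∂μ ≤ 1 := by
  obtain ⟨h1, h2⟩ := hT.key hc (a := -(m' : ℤ)) (a' := -(m : ℤ)) (b := 0) (b' := 1)
    (by omega) (by omega) zero_le_one
  have e : (fun ω => P μ T c (-(m' : ℤ)) 0 ω * P μ T c (-(m : ℤ)) 1 ω /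
      (P μ T c (-(m : ℤ)) 0 ω * P μ T c (-(m' : ℤ)) 1 ω)) =ᵐ[μ]
      fun ω => Real.exp (Gm μ T c m' ω - Gm μ T c m ω) := by
    filter_upwards [hT.P_pos hc (-(m' : ℤ)) 0, hT.P_pos hc (-(m : ℤ)) 1,
      hT.P_pos hc (-(m : ℤ)) 0, hT.P_pos hc (-(m' : ℤ)) 1] with ω a b d f
    rw [← Real.exp_log (div_pos (mul_pos a b) (mul_pos d f)),
      Real.log_div (mul_pos a b).ne' (mul_pos d f).ne', Real.log_mul a.ne' b.ne',
      Real.log_mul d.ne' f.ne']
    congr 1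
    unfold Gm J
    ring
  exact ⟨h1.congr e, integral_congr_ae e ▸ h2⟩

theorem Fl.mem_le (hT : Fl μ T) (hc : ∀ s, MeasurableSet {ω | c ω = s}) {m m' : ℕ} (h : m ≤ m')
    {a : ℝ} (a0 : 0 < a) (a1 : a ≤ 1) : ∫ ω, |Gm μ T c m ω - Gm μ T c m' ω| ∂μ ≤
      a + 2 / a * (∫ ω, Gm μ T c m ω ∂μ - ∫ ω, Gm μ T c m' ω ∂μ) := by
  obtain ⟨h1, h2⟩ := hT.mem_exp hc h
  have i1 := hT.int_Gm hc m
  have i2 := hT.int_Gm hc m'
  have i3 : Integrable (fun ω => Gm μ T c m' ω - Gm μ T c m ω) μ := i2.sub i1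
  have i4 : Integrable (fun ω => Real.exp (Gm μ T c m' ω - Gm μ T c m ω) - 1) μ :=
    h1.sub (integrable_const _)
  have i5 : Integrable (fun ω => Real.exp (Gm μ T c m' ω - Gm μ T c m ω) - 1 -
      (Gm μ T c m' ω - Gm μ T c m ω)) μ := i4.sub i3
  have h3 := integral_mono (i1.sub i2).abs ((integrable_const a).add (i5.const_mul (2 / a)))
    fun ω => by
      have := mem_abs a0 a1 (Gm μ T c m' ω - Gm μ T c m ω)
      rwa [abs_sub_comm] at this
  refine le_trans h3 ?_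
  simp only [Pi.add_apply]
  rw [integral_add (integrable_const a) (i5.const_mul (2 / a)), integral_const_mul,
    integral_sub i4 i3, integral_sub h1 (integrable_const _), integral_sub i2 i1]
  simp only [integral_const, probReal_univ, smul_eq_mul, one_mul, mul_one]
  exact add_le_add le_rfl (mul_le_mul_of_nonneg_left (by linarith) (by positivity))

theorem Fl.Gm_cauchy (hT : Fl μ T) (hc : ∀ s, MeasurableSet {ω | c ω = s}) {ε : ℝ} (ε0 : 0 < ε) :
    ∃ k : ℕ, ∀ m m' : ℕ, k ≤ m → m ≤ m' → ∫ ω, |Gm μ T c m ω - Gm μ T c m' ω| ∂μ ≤ ε := by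
  set h : ℕ → ℝ := fun m => ∫ ω, Gm μ T c m ω ∂μ with hh
  have h0 : ∀ m, 0 ≤ h m := fun m => integral_nonneg_of_ae (hT.Gm_nn hc m)
  have hb : BddBelow (range h) := ⟨0, by rintro _ ⟨m, rfl⟩; exact h0 m⟩
  have hanti : ∀ m m', m ≤ m' → h m' ≤ h m := fun m m' hm => by
    by_contra hlt
    have d0 : 0 < h m' - h m := by linarith [not_le.1 hlt]
    have a0 : 0 < min 1 (h m' - h m) := lt_min one_pos d0
    have k1 := hT.mem_le hc hm a0 (min_le_left _ _)
    have k2 : 0 ≤ ∫ ω, |Gm μ T c m ω - Gm μ T c m' ω| ∂μ := integral_nonneg fun ω => abs_nonneg _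
    have k3 : 2 ≤ 2 / min 1 (h m' - h m) := by
      rw [le_div_iff₀ a0]; linarith [min_le_left 1 (h m' - h m)]
    have k4 := min_le_right 1 (h m' - h m)
    change _ ≤ _ + _ * (h m - h m') at k1
    nlinarith
  have a0 : 0 < min 1 (ε / 2) := lt_min one_pos (by linarith)
  obtain ⟨k, hk⟩ := exists_lt_of_ciInf_lt
    (lt_add_of_pos_right (⨅ m, h m) (by positivity : 0 < min 1 (ε / 2) * ε / 4))
  refine ⟨k, fun m m' h1 h2 => (hT.mem_le hc h2 a0 (min_le_left _ _)).trans ?_⟩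
  change _ + _ * (h m - h m') ≤ _
  have k1 := hanti k m h1
  have k2 := ciInf_le hb m'
  have k3 : 2 / min 1 (ε / 2) * (h m - h m') ≤ 2 / min 1 (ε / 2) * (min 1 (ε / 2) * ε / 4) :=
    mul_le_mul_of_nonneg_left (by linarith) (by positivity)
  have k4 : 2 / min 1 (ε / 2) * (min 1 (ε / 2) * ε / 4) = ε / 2 := by field_simp; norm_num
  linarith [min_le_right 1 (ε / 2)]

theorem Fl.mem_shift (hT : Fl μ T) (hc : ∀ s, MeasurableSet {ω | c ω = s}) (m : ℕ) (j a : ℤ)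
    (ha : a = j - m) (ω : Ω) :
    Gm μ T c m (T j ω) = J μ T c a (j + 1) ω - J μ T c a j ω := by
  unfold Gm J
  rw [← hT.P_shift hc, ← hT.P_shift hc, ha, zero_add, add_comm 1 j, neg_add_eq_sub]

theorem mem_tele (f : ℤ → ℝ) (a : ℤ) (n : ℕ) :
    ∑ j ∈ Finset.Ico a (a + n), (f (j + 1) - f j) = f (a + n) - f a := by
  induction n with
  | zero => simp
  | succ n ih =>
    have : Finset.Ico a (a + (n + 1 : ℕ)) = insert (a + n) (Finset.Ico a (a + n)) := by
      ext x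
      simp only [Finset.mem_Ico, Finset.mem_insert]
      push_cast
      omega
    rw [this, Finset.sum_insert (by simp), ih]
    push_cast
    rw [← add_assoc]
    ring

theorem Fl.Gm_sum (hT : Fl μ T) (hc : ∀ s, MeasurableSet {ω | c ω = s}) (n k : ℕ) (ω : Ω) :
    ∑ j ∈ Finset.Ico (-(n : ℤ)) n, Gm μ T c (j + n + k).toNat (T j ω)
      = J μ T c (-(n : ℤ) - k) n ω - J μ T c (-(n : ℤ) - k) (-(n : ℤ)) ω := by
  have h := mem_tele (fun j => J μ T c (-(n : ℤ) - k) j ω) (-(n : ℤ)) (2 * n)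
  rw [show -(n : ℤ) + (2 * n : ℕ) = n by push_cast; ring] at h
  rw [← h]
  refine Finset.sum_congr rfl fun j hj => hT.mem_shift hc _ _ _ ?_ ω
  have := Finset.mem_Ico.1 hj
  omega

theorem Fl.Gm_sum' (hT : Fl μ T) (hc : ∀ s, MeasurableSet {ω | c ω = s}) (n : ℕ) (ω : Ω) :
    ∑ j ∈ Finset.range n, Gm μ T c j (T j ω) = J μ T c 0 n ω := by
  induction n with
  | zero => simp [J, P_self]
  | succ n ih =>
    rw [Finset.sum_range_succ, ih, hT.mem_shift hc n n 0 (by simp) ω]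
    push_cast
    ring

end Pool.Agent.Lib.MP_a52643_an.AC
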