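import Pool.Agent.Lib.MP_a52643_an.AC.Low
import Pool.Agent.Lib.MP_a52643_an.AC.Max

/-!
On a set of large measure all long two sided names have small mass.
-/

open MeasureTheory Set Filter

noncomputable section

namespace Pool.Agent.Lib.MP_a52643_an.AC

theorem smb_null {Ω : Type} [MeasurableSpace Ω] {μ : Measure Ω} [IsProbabilityMeasure μ]
    {B : ℕ → Set Ω} (mB : ∀ n, MeasurableSet (B n))
    (hB : ∀ᵐ ω ∂μ, ∀ᶠ n : ℕ in atTop, ω ∉ B n) {δ : ℝ} (δ0 : 0 < δ) :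
    ∀ᶠ n : ℕ in atTop, μ.real (B n) ≤ δ := by
  have h1 : Tendsto (fun n => μ (B n)) atTop (nhds (μ (∅ : Set Ω))) := by
    refine tendsto_measure_of_ae_tendsto_indicator_of_isFiniteMeasure atTop
      MeasurableSet.empty mB ?_
    filter_upwards [hB] with ω hω
    filter_upwards [hω] with n hn
    simp [hn]
  have h2 : Tendsto (fun n => μ.real (B n)) atTop (nhds (μ.real (∅ : Set Ω))) :=
    (ENNReal.tendsto_toReal (measure_ne_top μ _)).comp h1
  rw [measureReal_empty] at h2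
  exact h2.eventually (ge_mem_nhds δ0)

theorem smb_union {Ω : Type} [MeasurableSpace Ω] {μ : Measure Ω} [IsProbabilityMeasure μ]
    {E : ℕ → Set Ω} (hE : Monotone E) {A : Set Ω} (hA : ∀ᵐ ω ∂μ, ω ∈ A → ∃ n, ω ∈ E n)
    {x : ℝ} (hx : x < μ.real A) : ∃ n, x ≤ μ.real (E n) := by
  have h1 : Tendsto (fun n => μ (E n)) atTop (nhds (μ (⋃ n, E n))) :=
    tendsto_measure_iUnion_atTop hE
  have h2 : Tendsto (fun n => μ.real (E n)) atTop (nhds (μ.real (⋃ n, E n))) :=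
    (ENNReal.tendsto_toReal (measure_ne_top μ _)).comp h1
  have h3 : μ.real A ≤ μ.real (⋃ n, E n) := by
    refine ENNReal.toReal_mono (measure_ne_top μ _) (measure_mono_ae ?_)
    filter_upwards [hA] with ω hω hω'
    exact mem_iUnion.2 (hω hω')
  exact (h2.eventually (le_mem_nhds (hx.trans_le h3))).exists

variable {Ω S : Type} [MeasurableSpace Ω] [Fintype S] {μ : Measure Ω} [IsProbabilityMeasure μ]
  {T : ℤ → Ω → Ω} {c : Ω → S}

theorem Fl.names (hT : Fl μ T) (hc : ∀ s, MeasurableSet {ω | c ω = s}) {h α q ε : ℝ} (hα : α < h)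
    (ε0 : 0 < ε) (hH : ∃ᶠ n : ℕ in atTop, μ.real {ω | J μ T c 0 n ω ≤ h * n} ≤ q) :
    ∃ n₁ : ℕ, 1 - q - ε ≤ μ.real {ω | ∀ n : ℕ, n₁ ≤ n →
      P μ T c (-(n : ℤ)) n ω ≤ Real.exp (-(α * (2 * n)))} := by
  obtain ⟨θ, θ0, hθ⟩ : ∃ θ : ℝ, 0 < θ ∧ h = α + 4 * θ := ⟨(h - α) / 4, by linarith, by ring⟩
  obtain ⟨β, β0, hβ1, hβ2⟩ : ∃ β : ℝ, 0 < β ∧ β ≤ θ ∧ β ≤ θ * (ε / 4) :=
    ⟨min θ (θ * (ε / 4)), lt_min θ0 (by positivity), min_le_left _ _, min_le_right _ _⟩
  obtain ⟨G, mG, iG, hG1, hG2⟩ := hT.lower hc β0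
  have mF : Measurable fun ω => G ω - (α + θ) := mG.sub_const _
  have iF : Integrable (fun ω => G ω - (α + θ)) μ := iG.sub (integrable_const _)
  have two := hT.two_sided mF iF θ0
  have mT : ∀ j : ℤ, Measurable fun ω => G (T j ω) - (α + θ) := fun j =>
    (mG.comp (hT.mp j).measurable).sub_const _
  obtain ⟨A, hA⟩ : ∃ A : Set Ω, A = {ω | ∃ C : ℕ, ∀ n : ℕ,
    -(C : ℝ) ≤ ∑ j ∈ Finset.Ico (-(n : ℤ)) n, (G (T j ω) - (α + θ))} := ⟨_, rfl⟩
  have mA : MeasurableSet A := by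
    rw [hA, ofPred_exists]
    refine MeasurableSet.iUnion fun C => ?_
    rw [ofPred_forall]
    refine MeasurableSet.iInter fun n => measurableSet_le measurable_const ?_
    exact Finset.measurable_sum (Finset.Ico (-(n : ℤ)) n)
      (f := fun (j : ℤ) ω => G (T j ω) - (α + θ)) fun j _ => mT j
  obtain ⟨B, hB⟩ : ∃ B : ℕ → Set Ω, ∀ n ω, ω ∈ B n ↔
      ω ∉ A ∧ θ * n < ∑ j ∈ Finset.range n, (G (T j ω) - (α + θ)) :=
    ⟨fun n => {ω | ω ∉ A ∧ θ * n < ∑ j ∈ Finset.range n, (G (T j ω) - (α + θ))},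
      fun _ _ => Iff.rfl⟩
  have mB : ∀ n, MeasurableSet (B n) := by
    intro n
    have h1 : B n = Aᶜ ∩ {ω | θ * n < ∑ j ∈ Finset.range n, (G (T j ω) - (α + θ))} := by
      ext ω
      exact hB n ω
    rw [h1]
    refine mA.compl.inter (measurableSet_lt measurable_const ?_)
    exact Finset.measurable_sum (Finset.range n)
      (f := fun (j : ℕ) ω => G (T j ω) - (α + θ)) fun j _ => mT j
  have hB0 : ∀ᵐ ω ∂μ, ∀ᶠ n : ℕ in atTop, ω ∉ B n := by
    filter_upwards [two] with ω hω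
    rcases hω with ⟨C, hC⟩ | hω
    · refine Eventually.of_forall fun n hn => ((hB n ω).1 hn).1 ?_
      rw [hA]
      refine ⟨⌈C⌉₊, fun m => le_trans ?_ (hC m)⟩
      have := Nat.le_ceil C
      linarith
    · filter_upwards [hω] with n hn hn'
      exact absurd ((hB n ω).1 hn').2 (not_lt.2 hn)
  have hB1 := smb_null mB hB0 (δ := ε / 4) (by positivity)
  obtain ⟨n, hn1, hn2, hn3, hn4⟩ :=
    (hH.and_eventually (hG1.and (hB1.and (eventually_ge_atTop 1)))).exists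
  have n0 : (0 : ℝ) < n := by exact_mod_cast hn4
  have iT : ∀ j : ℤ, Integrable (fun ω => G (T j ω)) μ := fun j =>
    ((hT.mp j).integrable_comp iG.aestronglyMeasurable).2 iG
  have iS : Integrable (fun ω => ∑ j ∈ Finset.range n, G (T j ω)) μ :=
    integrable_finsetSum (Finset.range n) (f := fun (j : ℕ) ω => G (T j ω)) fun j _ => iT j
  have iD : Integrable (fun ω => |J μ T c 0 n ω - ∑ j ∈ Finset.range n, G (T j ω)|) μ :=
    ((hT.int_J hc 0 n).sub iS).abs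
  have hM := mul_meas_ge_le_integral_of_nonneg
    (Eventually.of_forall fun ω => abs_nonneg _) iD (θ * n)
  have hM' : μ.real {ω | θ * n ≤ |J μ T c 0 n ω - ∑ j ∈ Finset.range n, G (T j ω)|}
      ≤ ε / 4 := by
    have h1 : θ * n * μ.real {ω | θ * n ≤ |J μ T c 0 n ω - ∑ j ∈ Finset.range n, G (T j ω)|}
        ≤ θ * n * (ε / 4) := by
      refine hM.trans (hn2.trans ?_)
      nlinarith
    exact le_of_mul_le_mul_left h1 (by positivity)
  have hcov : (univ : Set Ω) ⊆ ((A ∪ {ω | J μ T c 0 n ω ≤ h * n}) ∪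
      {ω | θ * n ≤ |J μ T c 0 n ω - ∑ j ∈ Finset.range n, G (T j ω)|}) ∪ B n := by
    intro ω _
    by_contra hcon
    simp only [mem_union, not_or, mem_ofPred_eq, not_le] at hcon
    obtain ⟨⟨⟨h1, h2⟩, h3⟩, h4⟩ := hcon
    refine h4 ((hB n ω).2 ⟨h1, ?_⟩)
    have h5 := (abs_lt.1 h3).2
    have h6 : ∑ j ∈ Finset.range n, (G (T j ω) - (α + θ))
        = ∑ j ∈ Finset.range n, G (T j ω) - n * (α + θ) := by
      rw [Finset.sum_sub_distrib, Finset.sum_const, Finset.card_range, nsmul_eq_mul]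
    rw [h6]
    rw [hθ] at h2
    nlinarith
  have hA1 : 1 - q - ε < μ.real A := by
    have h1 := measureReal_mono hcov (measure_ne_top μ _)
    have h2 := measureReal_union_le (μ := μ) ((A ∪ {ω | J μ T c 0 n ω ≤ h * n}) ∪
      {ω | θ * n ≤ |J μ T c 0 n ω - ∑ j ∈ Finset.range n, G (T j ω)|}) (B n)
    have h3 := measureReal_union_le (μ := μ) (A ∪ {ω | J μ T c 0 n ω ≤ h * n})
      {ω | θ * n ≤ |J μ T c 0 n ω - ∑ j ∈ Finset.range n, G (T j ω)|}
    have h4 := measureReal_union_le (μ := μ) A {ω | J μ T c 0 n ω ≤ h * n}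
    rw [probReal_univ] at h1
    linarith
  refine smb_union (E := fun n₁ => {ω | ∀ n : ℕ, n₁ ≤ n →
      P μ T c (-(n : ℤ)) n ω ≤ Real.exp (-(α * (2 * n)))}) ?_ ?_ hA1
  · intro a b hab ω hω m hm
    exact hω m (hab.trans hm)
  · filter_upwards [hG2] with ω hω hωA
    rw [hA] at hωA
    obtain ⟨C, hC⟩ := hωA
    have hev : ∀ᶠ m : ℕ in atTop, (C : ℝ) + 1 ≤ θ * m :=
      (tendsto_natCast_atTop_atTop.const_mul_atTop θ0).eventually (eventually_ge_atTop _)
    obtain ⟨n₁, hn₁⟩ := eventually_atTop.1 (hω.and hev)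
    refine ⟨n₁, fun m hm => ?_⟩
    obtain ⟨h1, h2⟩ := hn₁ m hm
    have h3 := hC m
    have h4 : ∑ j ∈ Finset.Ico (-(m : ℤ)) m, (G (T j ω) - (α + θ))
        = ∑ j ∈ Finset.Ico (-(m : ℤ)) m, G (T j ω) - (2 * m) * (α + θ) := by
      rw [Finset.sum_sub_distrib, Finset.sum_const, Int.card_Ico, nsmul_eq_mul]
      have : ((m : ℤ) - -(m : ℤ)).toNat = 2 * m := by omega
      rw [this]
      push_cast
      ring
    rw [h4] at h3
    have m0 : (0 : ℝ) ≤ m := Nat.cast_nonneg m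
    have h5 : α * (2 * m) ≤ J μ T c (-(m : ℤ)) m ω := by nlinarith
    have h6 : 0 ≤ P μ T c (-(m : ℤ)) m ω := measureReal_nonneg
    rcases h6.eq_or_lt with h6 | h6
    · rw [← h6]
      exact (Real.exp_pos _).le
    · rw [← Real.log_le_iff_le_exp h6]
      unfold J at h5
      linarith

end Pool.Agent.Lib.MP_a52643_an.AC
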